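import Pool.Agent.Lib.MP_2619d0_ag.Z.Z0

/-!
Row z-4: the radial directions
-/

set_option autoImplicit false

namespace MP2619.Q6

open scoped NNReal
open IntermediateField MP2619.R MP2619.N Pool.Agent.Lib.MP_2619d0_ag Pool.Agent.Lib.MP_2619d0_ag.T
  MP2619.Q5

/-- A field generated by a set is algebraic over the algebra generated by the set. -/
private theorem Z4_alg {K N : Type} [Field K] [Field N] [Algebra K N] (S : Set N) :
    Algebra.IsAlgebraic (Algebra.adjoin K ((fun x : adjoin K S => (x : N)) ⁻¹' S)) (adjoin K S) := by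
  have key : ∀ r ∈ Algebra.adjoin K S, ∃ r' ∈ Algebra.adjoin K
      ((fun x : adjoin K S => (x : N)) ⁻¹' S), (r' : N) = r := by
    intro r hr
    have h1 : (Algebra.adjoin K ((fun x : adjoin K S => (x : N)) ⁻¹' S)).map (adjoin K S).val =
        Algebra.adjoin K S := by
      rw [AlgHom.map_adjoin]
      congr 1
      ext y
      constructor
      · rintro ⟨x, hx, rfl⟩
        exact hx
      · intro hy
        exact ⟨⟨y, subset_adjoin K S hy⟩, hy, rfl⟩
    rw [← h1] at hr
    obtain ⟨r', hr', h2⟩ := hr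
    exact ⟨r', hr', h2⟩
  refine ⟨fun x => ?_⟩
  obtain ⟨r, hr, s, hs, hx⟩ := mem_adjoin_iff_div.1 x.2
  obtain ⟨r', hr', h1⟩ := key r hr
  obtain ⟨s', hs', h2⟩ := key s hs
  have h3 : x = r' * s'⁻¹ := by
    apply Subtype.ext
    push_cast
    rw [hx, h1, h2, div_eq_mul_inv]
  rw [h3]
  have h4 : IsAlgebraic (Algebra.adjoin K ((fun x : adjoin K S => (x : N)) ⁻¹' S)) r' :=
    isAlgebraic_algebraMap (⟨r', hr'⟩ : Algebra.adjoin K ((fun x : adjoin K S => (x : N)) ⁻¹' S))
  have h5 : IsAlgebraic (Algebra.adjoin K ((fun x : adjoin K S => (x : N)) ⁻¹' S)) s' :=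
    isAlgebraic_algebraMap (⟨s', hs'⟩ : Algebra.adjoin K ((fun x : adjoin K S => (x : N)) ⁻¹' S))
  exact h4.mul h5.inv

private theorem Z4_trdeg {K N : Type} [Field K] [Field N] [Algebra K N] {ι : Type} [Fintype ι]
    (s : ι → N) : Algebra.trdeg K (adjoin K (Set.range s)) ≤ (Fintype.card ι : ℕ) := by
  have := Z4_alg (K := K) (Set.range s)
  refine (Algebra.IsAlgebraic.trdeg_le_cardinalMk (R := K) (A := adjoin K (Set.range s))
    ((fun x : adjoin K (Set.range s) => (x : N)) ⁻¹' (Set.range s))).trans ?_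
  have h1 : Cardinal.mk ↑((fun x : adjoin K (Set.range s) => (x : N)) ⁻¹' (Set.range s)) ≤
      Cardinal.mk (Set.range s) :=
    Cardinal.mk_preimage_of_injective _ _ Subtype.val_injective
  refine h1.trans (Cardinal.mk_range_le.trans ?_)
  rw [Cardinal.mk_fintype]

/-- Take `Ω = FractionRing (MvPolynomial (Fin s) L)` and `c` = the variables. In `adjoin K0 (range (u + c b))` the coordinate `l i` is `c i * b (l i)`, so it contains the `c i` and then the `u a`. The
`c i` are algebraically independent over `L`, hence over `adjoin K0 (range u)`: the transcendence degree is at least the one of `adjoin K0 (range u)` plus `s` (compare `trdeg_add_eq`, or families of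
algebraically independent elements as in `U1_basis`, `U1_count`, Q8/U1.lean). Take for `z` the transcendence degree of `adjoin K0 (range u)`, which is finite, as a natural number. -/
theorem trdeg_radial {n N s : ℕ} (K : Bk n N s) {K0 L : Type} [Field K0] [Field L] [Algebra K0 L]
    (b : Fin N → K0) (l : Fin s → Fin N) (hl : ∀ i, K.bl (l i) = i) (hb : ∀ i, b (l i) ≠ 0)
    (u : Fin N → L) (hu : ∀ i, u (l i) = 0) (d : ℕ)
    (h : ∀ (Ω : Type) [Field Ω] [Algebra L Ω] [Algebra K0 Ω] [IsScalarTower K0 L Ω]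
      (c : Fin s → Ω), Algebra.trdeg K0 (adjoin K0 (Set.range fun a =>
        algebraMap L Ω (u a) + c (K.bl a) * algebraMap K0 Ω (b a))) ≤ d) :
    ∃ z : ℕ, Algebra.trdeg K0 (adjoin K0 (Set.range u)) ≤ z ∧ z + s ≤ d := by
  have hfin := Z4_trdeg (K := K0) u
  have hlt : Algebra.trdeg K0 (adjoin K0 (Set.range u)) < Cardinal.aleph0 :=
    lt_of_le_of_lt hfin (Cardinal.natCast_lt_aleph0)
  obtain ⟨z, hz⟩ := Cardinal.lt_aleph0.1 hlt
  refine ⟨z, hz.le, ?_⟩
  let Ω : Type := FractionRing (MvPolynomial (Fin s) L)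
  let c : Fin s → Ω := fun i => algebraMap (MvPolynomial (Fin s) L) Ω (MvPolynomial.X i)
  have hc : AlgebraicIndependent L c := by
    have h1 := (MvPolynomial.algebraicIndependent_X (Fin s) L).map'
      (f := IsScalarTower.toAlgHom L (MvPolynomial (Fin s) L) Ω)
      (IsFractionRing.injective (MvPolynomial (Fin s) L) Ω)
    exact h1
  obtain ⟨ι, v, hv⟩ := exists_isTranscendenceBasis' K0 (adjoin K0 (Set.range u))
  have h1 := hv.cardinalMk_eq_trdeg
  rw [hz] at h1
  have hvL : AlgebraicIndependent K0 (fun i => ((v i : adjoin K0 (Set.range u)) : L)) :=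
    hv.1.map' (f := (adjoin K0 (Set.range u)).val) Subtype.val_injective
  have hsum := hvL.sumElim_comp hc
  have hd := h Ω c
  set E := adjoin K0 (Set.range fun a =>
        algebraMap L Ω (u a) + c (K.bl a) * algebraMap K0 Ω (b a)) with hE
  have hmem : ∀ a, algebraMap L Ω (u a) + c (K.bl a) * algebraMap K0 Ω (b a) ∈ E :=
    fun a => subset_adjoin K0 _ ⟨a, rfl⟩
  have hcE : ∀ i, c i ∈ E := by
    intro i
    have h2 := hmem (l i)
    rw [hu, map_zero, zero_add, hl] at h2
    have h3 : c i = (c i * algebraMap K0 Ω (b (l i))) * algebraMap K0 Ω ((b (l i))⁻¹) := by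
      rw [mul_assoc, ← map_mul, mul_inv_cancel₀ (hb i), map_one, mul_one]
    rw [h3]
    exact E.mul_mem h2 (E.algebraMap_mem _)
  have huE : ∀ a, algebraMap L Ω (u a) ∈ E := by
    intro a
    have h2 := E.sub_mem (hmem a) (E.mul_mem (hcE (K.bl a)) (E.algebraMap_mem (b a)))
    rwa [add_sub_cancel_right] at h2
  have hFE : ∀ x ∈ adjoin K0 (Set.range u), algebraMap L Ω x ∈ E := by
    intro x hx
    have h2 : adjoin K0 (Set.range u) ≤ E.comap (IsScalarTower.toAlgHom K0 L Ω) := by
      rw [adjoin_le_iff]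
      rintro _ ⟨a, rfl⟩
      exact huE a
    exact h2 hx
  let w : Fin s ⊕ ι → E := Sum.elim (fun i => ⟨c i, hcE i⟩)
    (fun i => ⟨algebraMap L Ω ((v i : adjoin K0 (Set.range u)) : L), hFE _ (v i).2⟩)
  have hw : AlgebraicIndependent K0 w := by
    refine AlgebraicIndependent.of_comp (E.val) ?_
    convert hsum using 1
    funext x
    rcases x with x | x <;> rfl
  have h5 := hw.cardinalMk_le_trdeg
  have h6 := h5.trans hd
  rw [Cardinal.mk_sum, Cardinal.lift_uzero, Cardinal.lift_uzero, h1, Cardinal.mk_fin] at h6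
  have h7 : s + z ≤ d := by exact_mod_cast h6
  omega

end MP2619.Q6
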