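import Pool.Agent.Lib.MP_2619d0_ag.Z.Z0

/-!
Row z-5: the count with a given direction
-/

set_option autoImplicit false

namespace MP2619.Q6

open scoped NNReal
open IntermediateField MP2619.R MP2619.N Pool.Agent.Lib.MP_2619d0_ag Pool.Agent.Lib.MP_2619d0_ag.T
  MP2619.Q5

/-- A field generated by a set is algebraic over the algebra generated by the set. -/
private theorem Z5_alg {K N : Type} [Field K] [Field N] [Algebra K N] (S : Set N) :
    Algebra.IsAlgebraic (Algebra.adjoin K ((fun x : adjoin K S => (x : N)) ⁻¹' S)) (adjoin K S) := by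
  have key : ∀ r ∈ Algebra.adjoin K S, ∃ r' ∈ Algebra.adjoin K
      ((fun x : adjoin K S => (x : N)) ⁻¹' S), (r' : N) = r := by
    intro r hr
    have h1 : (Algebra.adjoin K ((fun x : adjoin K S => (x : N)) ⁻¹' S)).map (adjoin K S).val =
        Algebra.adjoin K S := by
      rw [AlgHom.map_adjoin]
      congr 1
      ext y
      constructor
      · rintro ⟨x, hx, rfl⟩
        exact hx
      · intro hy
        exact ⟨⟨y, subset_adjoin K S hy⟩, hy, rfl⟩
    rw [← h1] at hr
    obtain ⟨r', hr', h2⟩ := hr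
    exact ⟨r', hr', h2⟩
  refine ⟨fun x => ?_⟩
  obtain ⟨r, hr, s, hs, hx⟩ := mem_adjoin_iff_div.1 x.2
  obtain ⟨r', hr', h1⟩ := key r hr
  obtain ⟨s', hs', h2⟩ := key s hs
  have h3 : x = r' * s'⁻¹ := by
    apply Subtype.ext
    push_cast
    rw [hx, h1, h2, div_eq_mul_inv]
  rw [h3]
  have h4 : IsAlgebraic (Algebra.adjoin K ((fun x : adjoin K S => (x : N)) ⁻¹' S)) r' :=
    isAlgebraic_algebraMap (⟨r', hr'⟩ : Algebra.adjoin K ((fun x : adjoin K S => (x : N)) ⁻¹' S))
  have h5 : IsAlgebraic (Algebra.adjoin K ((fun x : adjoin K S => (x : N)) ⁻¹' S)) s' :=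
    isAlgebraic_algebraMap (⟨s', hs'⟩ : Algebra.adjoin K ((fun x : adjoin K S => (x : N)) ⁻¹' S))
  exact h4.mul h5.inv

private theorem Z5_trdeg {K N : Type} [Field K] [Field N] [Algebra K N] {ι : Type} [Fintype ι]
    (s : ι → N) : Algebra.trdeg K (adjoin K (Set.range s)) ≤ (Fintype.card ι : ℕ) := by
  have := Z5_alg (K := K) (Set.range s)
  refine (Algebra.IsAlgebraic.trdeg_le_cardinalMk (R := K) (A := adjoin K (Set.range s))
    ((fun x : adjoin K (Set.range s) => (x : N)) ⁻¹' (Set.range s))).trans ?_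
  have h1 : Cardinal.mk ↑((fun x : adjoin K (Set.range s) => (x : N)) ⁻¹' (Set.range s)) ≤
      Cardinal.mk (Set.range s) :=
    Cardinal.mk_preimage_of_injective _ _ Subtype.val_injective
  refine h1.trans (Cardinal.mk_range_le.trans ?_)
  rw [Cardinal.mk_fintype]

private theorem Z5_add {k K L : Type} [Field k] [Field K] [Field L] [Algebra k K] [Algebra K L]
    [Algebra k L] [IsScalarTower k K L] :
    Algebra.trdeg k K + Algebra.trdeg K L = Algebra.trdeg k L :=
  trdeg_add_eq k K

private theorem Z5_basis {k0 B N : Type} [Field k0] [Field B] [Field N] [Algebra k0 B]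
    [Algebra B N] [Algebra k0 N] (K0 : IntermediateField k0 N) (m : ℕ)
    (hn : ¬ Algebra.trdeg B (adjoin B (K0 : Set N)) ≤ m) :
    ∃ b : Fin (m + 1) → K0, AlgebraicIndependent B (fun i => (b i : N)) := by
  have := Z5_alg (K := B) (K0 : Set N)
  obtain ⟨u, hu, hb⟩ := exists_isTranscendenceBasis_subset (R := B)
    (A := adjoin B (K0 : Set N))
    ((fun x : adjoin B (K0 : Set N) => (x : N)) ⁻¹' (K0 : Set N))
  have h1 := hb.cardinalMk_eq_trdeg
  have h2 : ((m + 1 : ℕ) : Cardinal) ≤ Cardinal.mk u := by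
    rw [h1]
    rw [not_le] at hn
    have := Order.succ_le_of_lt hn
    rw [Cardinal.succ_natCast] at this
    exact_mod_cast this
  have h3 : Cardinal.mk (Fin (m + 1)) ≤ Cardinal.mk u := by
    simpa using h2
  obtain ⟨e⟩ := h3
  refine ⟨fun i => ⟨(e i).1.1, hu (e i).2⟩, ?_⟩
  have h4 := (hb.1.comp e e.injective).map' (f := (adjoin B (K0 : Set N)).val) Subtype.val_injective
  exact h4

private theorem Z5_card {n N s : ℕ} (K : Bk n N s) : N = n + s := by
  classical
  have h1 : Fintype.card {j : Fin N // ¬ K.wt j = 0} = n := by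
    have h := Fintype.card_congr K.ix
    rw [Fintype.card_fin] at h
    exact h
  have h2 : Fintype.card {j : Fin N // K.wt j = 0} = s := by
    let e : {j : Fin N // K.wt j = 0} ≃ Fin s :=
      { toFun := fun j => K.bl j
        invFun := fun i => ⟨K.o i, K.wo i⟩
        left_inv := fun j => Subtype.ext (K.inj _ _ (K.bo _) ((K.wo _).trans j.2.symm))
        right_inv := fun i => K.bo i }
    rw [Fintype.card_congr e, Fintype.card_fin]
  have h3 := Fintype.card_subtype_compl (fun j : Fin N => K.wt j = 0)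
  have h4 := Fintype.card_subtype_le (fun j : Fin N => K.wt j = 0)
  rw [Fintype.card_fin] at h3 h4
  omega

private theorem Z5_cA {N s : ℕ} (bl : Fin N → Fin s) (j0 j1 : Fin s → Fin N) :
    Fintype.card {q : Fin N × Fin N // q.2 ≠ j0 (bl q.1) ∧ q.2 ≠ j1 (bl q.1)} + N +
      Fintype.card {a : Fin N // j1 (bl a) ≠ j0 (bl a)} ≤ N * N := by
  classical
  let f : ({q : Fin N × Fin N // q.2 ≠ j0 (bl q.1) ∧ q.2 ≠ j1 (bl q.1)} ⊕
      (Fin N ⊕ {a : Fin N // j1 (bl a) ≠ j0 (bl a)})) → Fin N × Fin N :=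
    Sum.elim Subtype.val (Sum.elim (fun a => (a, j0 (bl a))) (fun a => (a.1, j1 (bl a.1))))
  have hf : Function.Injective f := by
    rintro (⟨⟨a, j⟩, hq⟩ | (a | ⟨a, ha⟩)) (⟨⟨a', j'⟩, hq'⟩ | (a' | ⟨a', ha'⟩)) h
    · have h' : (a, j) = (a', j') := h
      rw [Sum.inl.injEq]
      exact Subtype.ext h'
    · have h' : (a, j) = (a', j0 (bl a')) := h
      rw [Prod.mk.injEq] at h'
      obtain ⟨rfl, h2⟩ := h'
      exact absurd h2 hq.1
    · have h' : (a, j) = (a', j1 (bl a')) := h
      rw [Prod.mk.injEq] at h'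
      obtain ⟨rfl, h2⟩ := h'
      exact absurd h2 hq.2
    · have h' : (a, j0 (bl a)) = (a', j') := h
      rw [Prod.mk.injEq] at h'
      obtain ⟨rfl, h2⟩ := h'
      exact absurd h2.symm hq'.1
    · have h' : (a, j0 (bl a)) = (a', j0 (bl a')) := h
      rw [Prod.mk.injEq] at h'
      rw [h'.1]
    · have h' : (a, j0 (bl a)) = (a', j1 (bl a')) := h
      rw [Prod.mk.injEq] at h'
      obtain ⟨rfl, h2⟩ := h'
      exact absurd h2.symm ha'
    · have h' : (a, j1 (bl a)) = (a', j') := h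
      rw [Prod.mk.injEq] at h'
      obtain ⟨rfl, h2⟩ := h'
      exact absurd h2.symm hq'.2
    · have h' : (a, j1 (bl a)) = (a', j0 (bl a')) := h
      rw [Prod.mk.injEq] at h'
      obtain ⟨rfl, h2⟩ := h'
      exact absurd h2 ha
    · have h' : (a, j1 (bl a)) = (a', j1 (bl a')) := h
      rw [Prod.mk.injEq] at h'
      obtain ⟨rfl, h2⟩ := h'
      rfl
  have h1 := Fintype.card_le_of_injective f hf
  simp only [Fintype.card_sum, Fintype.card_prod, Fintype.card_fin] at h1
  omega

private theorem Z5_cT {N s : ℕ} (bl : Fin N → Fin s) (j0 j1 : Fin s → Fin N) (p : Fin N → Prop)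
    [DecidablePred p] (hp : ∀ j, p j → j1 (bl j) = j0 (bl j) → j = j0 (bl j)) :
    Fintype.card {j : Fin N // p j} + Fintype.card {i : Fin s // j1 i ≠ j0 i} ≤
      s + Fintype.card {a : Fin N // j1 (bl a) ≠ j0 (bl a)} := by
  classical
  let g : {j : Fin N // p j} → {i : Fin s // ¬ j1 i ≠ j0 i} ⊕
      {a : Fin N // j1 (bl a) ≠ j0 (bl a)} := fun j =>
    if h : j1 (bl j.1) ≠ j0 (bl j.1) then Sum.inr ⟨j.1, h⟩ else Sum.inl ⟨bl j.1, h⟩
  have hg : Function.Injective g := by
    rintro ⟨j, hj⟩ ⟨j', hj'⟩ h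
    have h' : g ⟨j, hj⟩ = g ⟨j', hj'⟩ := h
    simp only [g] at h'
    apply Subtype.ext
    show j = j'
    split_ifs at h' with h1 h2 h2
    · rw [Sum.inr.injEq, Subtype.mk.injEq] at h'
      exact h'
    · rw [Sum.inl.injEq, Subtype.mk.injEq] at h'
      have e1 := hp j hj (not_not.1 h1)
      have e2 := hp j' hj' (not_not.1 h2)
      rw [e1, e2, h']
  have h1 := Fintype.card_le_of_injective g hg
  rw [Fintype.card_sum, Fintype.card_subtype_compl, Fintype.card_fin] at h1
  have h2 := Fintype.card_subtype_le (fun i : Fin s => j1 i ≠ j0 i)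
  rw [Fintype.card_fin] at h2
  omega

variable {k0 B L : Type} [Field k0] [Field B] [Field L] [Algebra k0 B] [Algebra B L]
  [Algebra k0 L] [IsScalarTower k0 B L]

/-- The count with `r` elements -/
private theorem Z5_count {n N s : ℕ} [CharZero k0] (K : Bk n N s) (K0 : IntermediateField k0 L)
    (dd z : ℕ) (h : Algebra.trdeg k0 K0 ≤ dd) (G : Fin N → Fin N → B)
    (hG : AlgebraicIndependent k0 (fun q : Fin N × Fin N => G q.1 q.2)) (τ : Fin N → L)
    (b : Fin N → K0) (hb : ∀ a, pt (K.bd G) τ a = (b a : L)) (hnz : K.Nz b) (u : Fin N → L)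
    (c : Fin s → L)
    (hu : ∀ a, pt (K.bd G) (fun j => (K.wt j : L) * τ j) a = u a + c (K.bl a) * (b a : L))
    (hz : Algebra.trdeg K0 (adjoin K0 (Set.range u)) ≤ z) (r : ℕ) (b' : Fin r → K0)
    (hb' : AlgebraicIndependent B (fun i => (b' i : L))) : r + n ≤ dd + z := by
  classical
  have hL : CharZero L := charZero_of_injective_algebraMap (algebraMap k0 L).injective
  have hbd : ∀ a j, K.bl a = K.bl j → K.bd G a j = G a j := fun a j h => if_pos h
  have hbd0 : ∀ a j, K.bl a ≠ K.bl j → K.bd G a j = 0 := fun a j h => if_neg h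
  have hj : ∀ i : Fin s, ∃ j, K.bl j = i ∧ τ j ≠ 0 := by
    intro i
    obtain ⟨l, hbl, hl⟩ := hnz i
    by_contra hc
    push Not at hc
    apply hl
    have h1 : (b l : L) = 0 := by
      rw [← hb l]
      unfold pt
      refine Finset.sum_eq_zero fun j _ => ?_
      by_cases hj : K.bl j = i
      · rw [hc j hj, mul_zero]
      · rw [hbd0 l j (by rw [hbl]; exact fun h => hj h.symm), map_zero, zero_mul]
    exact_mod_cast h1
  choose j0 hj0 ht0 using hj
  have hj1 : ∀ i : Fin s, ∃ j, K.bl j = i ∧ τ j ≠ 0 ∧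
      (j = j0 i → ∀ j', K.bl j' = i → τ j' ≠ 0 → j' = j0 i) := by
    intro i
    by_cases h1 : ∃ j, K.bl j = i ∧ τ j ≠ 0 ∧ j ≠ j0 i
    · obtain ⟨j, hj1, hj2, hj3⟩ := h1
      exact ⟨j, hj1, hj2, fun h => absurd h hj3⟩
    · push Not at h1
      exact ⟨j0 i, hj0 i, ht0 i, fun _ => h1⟩
  choose j1 hj1 ht1 hsing using hj1
  set E1 := adjoin K0 (Set.range u) with hE1
  have t1 : IsScalarTower k0 E1 L := IsScalarTower.of_algebraMap_eq fun _ => rfl
  set f : ({q : Fin N × Fin N // q.2 ≠ j0 (K.bl q.1) ∧ q.2 ≠ j1 (K.bl q.1)} ⊕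
      {j : Fin N // τ j ≠ 0}) ⊕ {i : Fin s // j1 i ≠ j0 i} → L :=
    Sum.elim (Sum.elim (fun p => algebraMap B L (G p.1.1 p.1.2)) (fun j => τ j.1))
      (fun i => c i.1) with hf
  set E := adjoin E1 (Set.range f) with hE
  have hfE : ∀ x, f x ∈ E := fun x => subset_adjoin E1 _ ⟨x, rfl⟩
  have hE1E : ∀ x : E1, (x : L) ∈ E := fun x => E.algebraMap_mem x
  have hK : ∀ x : K0, (x : L) ∈ E := fun x => hE1E ⟨(x : L), E1.algebraMap_mem x⟩
  have huE : ∀ a, u a ∈ E := fun a => hE1E ⟨u a, subset_adjoin K0 _ ⟨a, rfl⟩⟩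
  have hGa : ∀ a j, j ≠ j0 (K.bl a) → j ≠ j1 (K.bl a) → algebraMap B L (G a j) ∈ E :=
    fun a j h h' => hfE (Sum.inl (Sum.inl ⟨(a, j), h, h'⟩))
  have hτ : ∀ j, τ j ∈ E := by
    intro j
    by_cases hj : τ j = 0
    · rw [hj]
      exact E.zero_mem
    · exact hfE (Sum.inl (Sum.inr ⟨j, hj⟩))
  have hc : ∀ i, j1 i ≠ j0 i → c i ∈ E := fun i hi => hfE (Sum.inr ⟨i, hi⟩)
  have hGL : ∀ a j, algebraMap B L (G a j) ∈ E := by
    intro a
    -- the remaining terms of the sums
    have hrest : ∀ j ∈ (Finset.univ.erase (j0 (K.bl a))).erase (j1 (K.bl a)),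
        algebraMap B L (K.bd G a j) ∈ E := by
      intro j hj
      rw [Finset.mem_erase, Finset.mem_erase] at hj
      by_cases hij : K.bl a = K.bl j
      · rw [hbd a j hij]
        exact hGa a j hj.2.1 hj.1
      · rw [hbd0 a j hij, map_zero]
        exact E.zero_mem
    by_cases hreg : j1 (K.bl a) = j0 (K.bl a)
    · -- a block with one coordinate
      have h1 : algebraMap B L (G a (j0 (K.bl a))) * τ (j0 (K.bl a)) = (b a : L) := by
        rw [← hb a]
        unfold pt
        rw [Finset.sum_eq_single (j0 (K.bl a)), hbd a _ (hj0 _).symm]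
        · intro j _ hj
          by_cases hij : K.bl a = K.bl j
          · have h2 : τ j = 0 := by
              by_contra h3
              exact hj (hsing (K.bl a) hreg j hij.symm h3)
            rw [h2, mul_zero]
          · rw [hbd0 a j hij, map_zero, zero_mul]
        · intro h
          exact absurd (Finset.mem_univ _) h
      have h2 : algebraMap B L (G a (j0 (K.bl a))) ∈ E := by
        rw [← eq_div_iff (ht0 _)] at h1
        rw [h1]
        exact E.div_mem (hK _) (hτ _)
      intro j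
      by_cases hj : j = j0 (K.bl a)
      · rw [hj]
        exact h2
      · exact hGa a j hj (by rw [hreg]; exact hj)
    · -- a block with two coordinates
      have hsplit : ∀ F : Fin N → L, ∑ j, F j = F (j0 (K.bl a)) + (F (j1 (K.bl a)) +
          ∑ j ∈ (Finset.univ.erase (j0 (K.bl a))).erase (j1 (K.bl a)), F j) := by
        intro F
        rw [Finset.add_sum_erase _ _ (Finset.mem_erase.2 ⟨hreg, Finset.mem_univ _⟩),
          Finset.add_sum_erase _ _ (Finset.mem_univ _)]
      have e1 := hb a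
      have e2 := hu a
      unfold pt at e1 e2
      rw [hsplit, hbd a _ (hj0 _).symm, hbd a _ (hj1 _).symm] at e1 e2
      beta_reduce at e2
      set S0 := ∑ j ∈ (Finset.univ.erase (j0 (K.bl a))).erase (j1 (K.bl a)),
        algebraMap B L (K.bd G a j) * τ j with hS0
      set S1 := ∑ j ∈ (Finset.univ.erase (j0 (K.bl a))).erase (j1 (K.bl a)),
        algebraMap B L (K.bd G a j) * ((K.wt j : L) * τ j) with hS1
      have m0 : S0 ∈ E := sum_mem fun j hj => E.mul_mem (hrest j hj) (hτ j)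
      have m1 : S1 ∈ E := sum_mem fun j hj =>
        E.mul_mem (hrest j hj) (E.mul_mem (IntermediateField.natCast_mem E _) (hτ j))
      set g0 := algebraMap B L (G a (j0 (K.bl a))) with hg0
      set g1 := algebraMap B L (G a (j1 (K.bl a))) with hg1
      set t0 := τ (j0 (K.bl a)) with ht0'
      set t1 := τ (j1 (K.bl a)) with ht1'
      have hw : (K.wt (j1 (K.bl a)) : L) - (K.wt (j0 (K.bl a)) : L) ≠ 0 := by
        rw [sub_ne_zero]
        intro h1
        have h2 : K.wt (j1 (K.bl a)) = K.wt (j0 (K.bl a)) := by exact_mod_cast h1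
        exact hreg (K.inj _ _ ((hj1 _).trans (hj0 _).symm) h2)
      have ht0n : t0 ≠ 0 := ht0 _
      have ht1n : t1 ≠ 0 := ht1 _
      have mX : (b a : L) - S0 ∈ E := E.sub_mem (hK _) m0
      have mY : u a + c (K.bl a) * (b a : L) - S1 ∈ E :=
        E.sub_mem (E.add_mem (huE a) (E.mul_mem (hc _ hreg) (hK _))) m1
      have hg1E : g1 ∈ E := by
        have h1 : g1 = ((u a + c (K.bl a) * (b a : L) - S1) -
            (K.wt (j0 (K.bl a)) : L) * ((b a : L) - S0)) /
            (t1 * ((K.wt (j1 (K.bl a)) : L) - (K.wt (j0 (K.bl a)) : L))) := by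
          rw [eq_div_iff (mul_ne_zero ht1n hw), ← e2, ← e1]
          ring
        rw [h1]
        exact E.div_mem (E.sub_mem mY (E.mul_mem (IntermediateField.natCast_mem E _) mX))
          (E.mul_mem (hτ _) (E.sub_mem (IntermediateField.natCast_mem E _) (IntermediateField.natCast_mem E _)))
      have hg0E : g0 ∈ E := by
        have h1 : g0 = ((b a : L) - S0 - g1 * t1) / t0 := by
          rw [eq_div_iff ht0n, ← e1]
          ring
        rw [h1]
        exact E.div_mem (E.sub_mem mX (E.mul_mem hg1E (hτ _))) (hτ _)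
      intro j
      by_cases hj : j = j0 (K.bl a)
      · rw [hj]
        exact hg0E
      · by_cases hj' : j = j1 (K.bl a)
        · rw [hj']
          exact hg1E
        · exact hGa a j hj hj'
  have hu1 := hG.sumElim_comp hb'
  set u' : Fin r ⊕ (Fin N × Fin N) → E :=
    Sum.elim (fun i => ⟨(b' i : L), hK (b' i)⟩)
    (fun q => ⟨algebraMap B L (G q.1 q.2), hGL q.1 q.2⟩) with hudef
  have hu' : AlgebraicIndependent k0 u' := by
    refine AlgebraicIndependent.of_comp (E.val.restrictScalars k0) ?_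
    convert hu1 using 1
    funext x
    rcases x with x | x <;> rfl
  have h28 := hu'.cardinalMk_le_trdeg
  have hA := Z5_cA K.bl j0 j1
  have hT := Z5_cT K.bl j0 j1 (fun j => τ j ≠ 0) (fun j hj h1 =>
    hsing (K.bl j) h1 j rfl hj)
  have hN := Z5_card K
  set nA := Fintype.card {q : Fin N × Fin N // q.2 ≠ j0 (K.bl q.1) ∧ q.2 ≠ j1 (K.bl q.1)} with hnA
  set nT := Fintype.card {j : Fin N // τ j ≠ 0} with hnT
  set nR := Fintype.card {i : Fin s // j1 i ≠ j0 i} with hnR
  have h23 : Algebra.trdeg E1 E ≤ ((nA + nT + nR : ℕ) : Cardinal) := by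
    have h1 := Z5_trdeg (K := E1) f
    rw [Fintype.card_sum, Fintype.card_sum] at h1
    exact h1
  have hadd1 := Z5_add (k := k0) (K := K0) (L := E1)
  have hadd2 := Z5_add (k := k0) (K := E1) (L := E)
  have h3 : Cardinal.mk (Fin r ⊕ (Fin N × Fin N)) = ((r + N * N : ℕ) : Cardinal) := by
    rw [Cardinal.mk_fintype]
    simp only [Fintype.card_sum, Fintype.card_prod, Fintype.card_fin]
  rw [h3, ← hadd2, ← hadd1] at h28
  have h4 : Algebra.trdeg k0 K0 + Algebra.trdeg K0 E1 + Algebra.trdeg E1 E ≤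
      ((dd : ℕ) : Cardinal) + ((z : ℕ) : Cardinal) + ((nA + nT + nR : ℕ) : Cardinal) :=
    add_le_add (add_le_add h hz) h23
  have h5 := h28.trans h4
  have h6 : r + N * N ≤ dd + z + (nA + nT + nR) := by exact_mod_cast h5
  omega

/-- Model: `U1_count`, `U1_basis`, `GPC` in Q8/U1.lean. Choose `j0 i` in the block `i` with `τ (j0 i) ≠ 0` (`b ≠ 0` in the block), and `j1 i` in the block with `j1 i ≠ j0 i`, `τ (j1 i) ≠ 0` if there
is one (call the block regular), otherwise `j1 i = j0 i`. Let `E` be generated over `K0` by the `u a` (transcendence degree `≤ z` over `K0`) and by: (1) `G a j` for `j ≠ j0 (K.bl a)`,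
`j ≠ j1 (K.bl a)`; (2) the `τ j` with `τ j ≠ 0`; (3) `c i` for the regular blocks `i`, where `hu : pt (K.bd G) (wt τ) a = u a + c (K.bl a) * b a`. In a block which is not regular `G a (j0 i) τ (j0 i) = b a`, in a
regular block `∑ j, G a j τ j = b a` and `∑ j, G a j wt j τ j = u a + c i b a` are linear equations for `G a (j0 i)`, `G a (j1 i)` with determinant `τ (j0 i) τ (j1 i) (wt (j1 i) - wt (j0 i)) ≠ 0` (`K.inj`). So
`E` contains all entries of `G`. Number of the generators (1), (2), (3): let `R` be the number of coordinates in regular blocks and `ρ` the number of regular blocks. (1) `N * N - N - R`; (2) `≤ (s - ρ) + R`;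
(3) `ρ`; the sum is `≤ N * N - N + s = N * N - n` (`K.card : N = n + s` or similar, Q7). With `r` elements of `K0` which are algebraically independent over `B`: `r + N * N ≤ dd + z + (N * N - n)`. -/
theorem countz {n N s : ℕ} [CharZero k0] (K : Bk n N s) (K0 : IntermediateField k0 L) (dd z : ℕ)
    (h : Algebra.trdeg k0 K0 ≤ dd) (G : Fin N → Fin N → B)
    (hG : AlgebraicIndependent k0 (fun q : Fin N × Fin N => G q.1 q.2)) (τ : Fin N → L)
    (b : Fin N → K0) (hb : ∀ a, pt (K.bd G) τ a = (b a : L)) (hnz : K.Nz b) (u : Fin N → L)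
    (c : Fin s → L)
    (hu : ∀ a, pt (K.bd G) (fun j => (K.wt j : L) * τ j) a = u a + c (K.bl a) * (b a : L))
    (hz : Algebra.trdeg K0 (adjoin K0 (Set.range u)) ≤ z) :
    ∃ δ : ℕ, Algebra.trdeg B (adjoin B (K0 : Set L)) ≤ δ ∧ δ + n ≤ dd + z := by
  have h1 := Z5_count K K0 dd z h G hG τ b hb hnz u c hu hz 0 Fin.elim0
    ((algebraicIndependent_empty_type_iff).2 (algebraMap B L).injective)
  refine ⟨dd + z - n, ?_, by omega⟩
  by_contra hn
  obtain ⟨b', hb'⟩ := Z5_basis K0 (dd + z - n) hn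
  have h2 := Z5_count K K0 dd z h G hG τ b hb hnz u c hu hz _ b' hb'
  omega

end MP2619.Q6
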