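import Pool.Agent.Lib.MP_2619d0_ag.Y.Y2
import Pool.Agent.Lib.MP_2619d0_ag.Z.Z4
import Pool.Agent.Lib.MP_2619d0_ag.Z.Z5

/-!
Row z-6: double points, the coordinates in the small field
-/

set_option autoImplicit false

namespace MP2619.Q6

open scoped NNReal
open IntermediateField MP2619.R MP2619.N Pool.Agent.Lib.MP_2619d0_ag Pool.Agent.Lib.MP_2619d0_ag.T
  MP2619.Q5

/-- the Taylor polynomial over an extension field -/
private theorem Z6_tay {N : ℕ} {k κ Ω : Type} [Field k] [Field κ] [Field Ω] [Algebra k κ]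
    [Algebra κ Ω] [Algebra k Ω] [IsScalarTower k κ Ω] (b : Fin N → κ)
    (g : MvPolynomial (Fin N) k) :
    tay (fun a => algebraMap κ Ω (b a)) g = MvPolynomial.map (algebraMap κ Ω) (tay b g) := by
  have h3 : MvPolynomial.map (algebraMap κ Ω) (tay b g) =
    MvPolynomial.mapAlgHom (IsScalarTower.toAlgHom k κ Ω) (tay b g) := rfl
  rw [h3]
  unfold tay
  rw [MvPolynomial.comp_aeval_apply]
  congr 2
  funext j
  rw [map_add]
  congr 1
  · exact (MvPolynomial.map_C (algebraMap κ Ω) (b j)).symm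
  · exact (MvPolynomial.map_X (algebraMap κ Ω) j).symm

/-- the quadratic part over an extension field -/
private theorem Z6_qp {N : ℕ} {k κ Ω : Type} [Field k] [Field κ] [Field Ω] [Algebra k κ]
    [Algebra κ Ω] [Algebra k Ω] [IsScalarTower k κ Ω] (b : Fin N → κ)
    (g : MvPolynomial (Fin N) k) :
    qp (fun a => algebraMap κ Ω (b a)) g = MvPolynomial.map (algebraMap κ Ω) (qp b g) := by
  rw [qp, qp, Z6_tay]
  ext e
  rw [MvPolynomial.coeff_homogeneousComponent, MvPolynomial.coeff_map, MvPolynomial.coeff_map,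
    MvPolynomial.coeff_homogeneousComponent]
  split_ifs
  · rfl
  · exact (map_zero _).symm

/-- the radial directions over an extension field -/
private theorem Z6_rad {n N s : ℕ} (K : Bk n N s) {k κ Ω : Type} [Field k] [Field κ] [Field Ω]
    [Algebra k κ] [Algebra κ Ω] (g : MvPolynomial (Fin N) k) {d : Fin s → ℕ} (hd : K.MH g d)
    (b : Fin N → κ)
    (h : ∀ d : Fin N →₀ ℕ, d.degree ≤ 1 → MvPolynomial.coeff d (tay b g) = 0)
    (v : Fin N → Ω) (c : Fin s → Ω) :
    MvPolynomial.aeval (fun a => v a + c (K.bl a) * algebraMap κ Ω (b a)) (qp b g) =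
      MvPolynomial.aeval v (qp b g) := by
  let _ : Algebra k Ω := ((algebraMap κ Ω).comp (algebraMap k κ)).toAlgebra
  have _ : IsScalarTower k κ Ω := IsScalarTower.of_algebraMap_eq fun _ => rfl
  have h1 : ∀ d : Fin N →₀ ℕ, d.degree ≤ 1 →
      MvPolynomial.coeff d (tay (fun a => algebraMap κ Ω (b a)) g) = 0 := by
    intro d hd1
    rw [Z6_tay, MvPolynomial.coeff_map, h d hd1, map_zero]
  have h2 := rad2 K g hd (fun a => algebraMap κ Ω (b a)) h1 v c
  rw [Z6_qp, MvPolynomial.aeval_map_algebraMap, MvPolynomial.aeval_map_algebraMap] at h2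
  exact h2

variable {k0 B L : Type} [Field k0] [Field B] [Field L] [Algebra k0 B] [Algebra B L]
  [Algebra k0 L] [IsScalarTower k0 B L]

/-- Model: `low_count0` (Y/Y5.lean, finished file /team-store/y_Y5.lean). Let `w a = pt (K.bd G) (fun j => wt j * τ j) a`. By `tay2` for `y a = ∑ j, C (algebraMap B L (K.bd G a j) * τ j) * (1 + X) ^ (K.wt j)` and `hl` the quadratic parts
`qp b (f i)` (mapped to `L`) vanish at `w`. Choose `l i` in the block `i` with `b (l i) ≠ 0`, `c i = w (l i) / b (l i)`, `u a = w a - c (K.bl a) * b a`, so `u (l i) = 0`. By `rad2` over an extension field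
`Ω` of `L` (for the point `algebraMap K0 Ω (b a)`; `qp` there is the image of `qp b (f i)` under `MvPolynomial.map`) the quadratic parts vanish at `u a + c' (K.bl a) * b a` for all `c' : Fin s → Ω`, so `hz` gives the
bound `≤ d` for the transcendence degree (`Zd`, `Ω` as an extension of `K0`), and `trdeg_radial` gives `z` with `z + s ≤ d`. Then `countz`, and `N = n + s` (`K.card`). -/
theorem low_countz0 {n N s r : ℕ} [CharZero k0] (K : Bk n N s)
    (f : Fin r → MvPolynomial (Fin N) k0) {d : Fin s → ℕ} (hd : ∀ i, K.MH (f i) d)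
    (G : Fin N → Fin N → B)
    (hG : AlgebraicIndependent k0 (fun q : Fin N × Fin N => G q.1 q.2)) (τ : Fin N → L)
    (K0 : IntermediateField k0 L) (dd D : ℕ) (h : Algebra.trdeg k0 K0 ≤ dd) (b : Fin N → K0)
    (hb : ∀ a, pt (K.bd G) τ a = (b a : L)) (hnz : K.Nz b)
    (h1 : ¬ TayNe 1 f b) (hz : Zd f b D) (hl : ¬ K.Low2 f G τ) :
    ∃ δ : ℕ, Algebra.trdeg B (adjoin B (K0 : Set L)) ≤ δ ∧ δ + N ≤ dd + D := by
  have h1' : ∀ (i : Fin r) (d : Fin N →₀ ℕ), d.degree ≤ 1 →
      MvPolynomial.coeff d (tay b (f i)) = 0 := by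
    intro i d hd1
    by_contra hc
    exact h1 ⟨i, d, hd1, hc⟩
  obtain ⟨w, hw⟩ : ∃ w : Fin N → L, ∀ a, w a = pt (K.bd G) (fun j => (K.wt j : L) * τ j) a :=
    ⟨_, fun _ => rfl⟩
  -- the quadratic parts vanish at `w`
  have hy0 : ∀ a, ((∑ j, Polynomial.C (algebraMap B L (K.bd G a j) * τ j) *
      (1 + Polynomial.X) ^ (K.wt j) : Polynomial L)).coeff 0 = algebraMap K0 L (b a) := by
    intro a
    have h3 := hb a
    rw [pt] at h3
    refine Eq.trans ?_ h3
    rw [Polynomial.finsetSum_coeff]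
    refine Finset.sum_congr rfl fun j _ => ?_
    rw [Polynomial.coeff_C_mul, Polynomial.coeff_zero_eq_eval_zero]
    simp
  have hy1 : ∀ a, ((∑ j, Polynomial.C (algebraMap B L (K.bd G a j) * τ j) *
      (1 + Polynomial.X) ^ (K.wt j) : Polynomial L)).coeff 1 = w a := by
    intro a
    rw [hw, pt, Polynomial.finsetSum_coeff]
    refine Finset.sum_congr rfl fun j _ => ?_
    rw [Polynomial.coeff_C_mul, add_comm (1 : Polynomial L), Polynomial.coeff_X_add_one_pow,
      Nat.choose_one_right]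
    ring
  have hwq : ∀ i, MvPolynomial.aeval w (qp b (f i)) = 0 := by
    intro i
    have hcoef : ∀ d : Fin N →₀ ℕ, d.degree ≤ 1 →
        MvPolynomial.coeff d (tay (fun a => algebraMap K0 L (b a)) (f i)) = 0 := by
      intro d hd1
      rw [Z6_tay, MvPolynomial.coeff_map, h1' i d hd1, map_zero]
    have h4 := (tay2 (f i) (fun a => algebraMap K0 L (b a)) hcoef
      (fun a => ∑ j, Polynomial.C (algebraMap B L (K.bd G a j) * τ j) *
        (1 + Polynomial.X) ^ (K.wt j)) hy0).2.2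
    have h5 : (K.Lp f G τ i).coeff 2 = 0 := by
      by_contra hc
      exact hl ⟨2, le_refl _, i, hc⟩
    rw [Bk.Lp] at h5
    rw [h5, Z6_qp] at h4
    simp only [hy1] at h4
    rw [MvPolynomial.aeval_map_algebraMap] at h4
    exact h4.symm
  -- the direction without the radial part
  choose l hl1 hl2 using hnz
  obtain ⟨c, hc⟩ : ∃ c : Fin s → L, ∀ i, c i = w (l i) / (b (l i) : L) := ⟨_, fun _ => rfl⟩
  obtain ⟨u, hu⟩ : ∃ u : Fin N → L, ∀ a, u a = w a - c (K.bl a) * (b a : L) := ⟨_, fun _ => rfl⟩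
  have hbne : ∀ i, (b (l i) : L) ≠ 0 := by
    intro i h0
    exact hl2 i (Subtype.ext h0)
  have hul : ∀ i, u (l i) = 0 := by
    intro i
    rw [hu, hl1, hc, div_mul_cancel₀ _ (hbne i), sub_self]
  have huq : ∀ i, MvPolynomial.aeval u (qp b (f i)) = 0 := by
    intro i
    rw [← hwq i, ← Z6_rad K (f i) (hd i) b (h1' i) u c]
    congr 2
    funext a
    rw [hu]
    exact sub_add_cancel _ _
  obtain ⟨z, hz1, hz2⟩ := trdeg_radial K b l hl1 hl2 u hul D (by
    intro Ω _ _ _ _ c'
    refine hz Ω (fun a => algebraMap L Ω (u a) + c' (K.bl a) * algebraMap K0 Ω (b a)) ?_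
    intro i
    rw [Z6_rad K (f i) (hd i) b (h1' i) (fun a => algebraMap L Ω (u a)) c']
    have h6 := MvPolynomial.aeval_algebraMap_apply (R := K0) Ω u (qp b (f i))
    rw [huq i, map_zero] at h6
    exact h6)
  obtain ⟨δ, hδ1, hδ2⟩ := countz K K0 dd z h G hG τ b hb (fun i => ⟨l i, hl1 i, hl2 i⟩) u c
    (fun a => by rw [hu, hw]; exact (sub_add_cancel _ _).symm) hz1
  refine ⟨δ, hδ1, ?_⟩
  have := K.card
  omega

end MP2619.Q6
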