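import Pool.Agent.Lib.MP_2619d0_ag.Y.Y0

/-!
# Theorem Q13: double base points, the dimension of the zeros of the quadratic parts, definitions
-/

set_option autoImplicit false

namespace MP2619.Q6

open scoped NNReal
open IntermediateField MP2619.R MP2619.N Pool.Agent.Lib.MP_2619d0_ag Pool.Agent.Lib.MP_2619d0_ag.T
  MP2619.Q5

/-- the forms `Q j` and the linear forms `Λ i` have only the trivial common zero over all extension fields -/
def Triv {κ : Type} [Field κ] {N d r : ℕ} (Q : Fin r → MvPolynomial (Fin N) κ)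
    (Λ : Fin d → Fin N → κ) : Prop :=
  ∀ (Ω : Type) [Field Ω] [Algebra κ Ω] (w : Fin N → Ω), (∀ j, MvPolynomial.aeval w (Q j) = 0) →
    (∀ i, ∑ a, algebraMap κ Ω (Λ i a) * w a = 0) → w = 0

/-- the common zeros of the quadratic parts at `P0` have dimension at most `d` -/
def Zd {N r : ℕ} {k κ : Type} [Field k] [Field κ] [Algebra k κ]
    (f : Fin r → MvPolynomial (Fin N) k) (P0 : Fin N → κ) (d : ℕ) : Prop :=
  ∀ (Ω : Type) [Field Ω] [Algebra κ Ω] (w : Fin N → Ω),
    (∀ i, MvPolynomial.aeval w (qp P0 (f i)) = 0) →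
      Algebra.trdeg κ (adjoin κ (Set.range w)) ≤ d

/-- the complex form: `d` linear forms which have no common zero with the quadratic parts but zero -/
def ZL {N r : ℕ} (f : Fin r → MvPolynomial (Fin N) ℂ) (P0 : Fin N → ℂ) (d : ℕ) : Prop :=
  ∃ Λ : Fin d → Fin N → ℂ, ∀ w : Fin N → ℂ,
    (∀ i, MvPolynomial.aeval w (qp P0 (f i)) = 0) → (∀ i, ∑ a, Λ i a * w a = 0) → w = 0

end MP2619.Q6
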