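import Pool.Agent.Lib.MP_2619d0_ag.Z.Z0

/-!
Row z-7: one quadratic part is enough if `N ≤ d + 1`
-/

set_option autoImplicit false

namespace MP2619.Q6

open scoped NNReal
open IntermediateField MP2619.R MP2619.N Pool.Agent.Lib.MP_2619d0_ag Pool.Agent.Lib.MP_2619d0_ag.T
  MP2619.Q5

private theorem Z7_hom {N e : ℕ} {Q : MvPolynomial (Fin N) ℂ} (hQ : Q.IsHomogeneous e) (t : ℂ)
    (v : Fin N → ℂ) : MvPolynomial.eval (fun a => t * v a) Q = t ^ e * MvPolynomial.eval v Q := by
  rw [MvPolynomial.eval_eq, MvPolynomial.eval_eq, Finset.mul_sum]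
  refine Finset.sum_congr rfl fun d hd => ?_
  have h1 : d.degree = e := by
    have h2 := hQ (MvPolynomial.mem_support_iff.1 hd)
    rw [Finsupp.degree_eq_weight_one]
    exact h2
  have h3 : ∏ i ∈ d.support, (t * v i) ^ d i = t ^ e * ∏ i ∈ d.support, v i ^ d i := by
    simp_rw [mul_pow]
    rw [Finset.prod_mul_distrib, Finset.prod_pow_eq_pow_sum, ← h1]
    rfl
  rw [h3]
  ring

/-- By `h1`, `h2` some `f i` has a coefficient of order exactly two at `P0`, so `qp P0 (f i) ≠ 0`, and it has a value `≠ 0` at some `v : Fin N → ℂ` (`MvPolynomial.funext`), `v c ≠ 0` for some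
`c`. Let the linear forms be `w a * v c - w c * v a` for `a ≠ c` (`N - 1 ≤ d` forms, the other `Λ i` are zero). A common zero `w` is `(w c / v c) • v`, and the value of the quadratic form at it is
`(w c / v c) ^ 2` times the value at `v`. -/
theorem zl_of_tay2 {N r : ℕ} (f : Fin r → MvPolynomial (Fin N) ℂ) (P0 : Fin N → ℂ)
    (h1 : ¬ TayNe 1 f P0) (h2 : TayNe 2 f P0) (d : ℕ) (hd : N ≤ d + 1) : ZL f P0 d := by
  obtain ⟨i0, e, he, hne⟩ := h2
  have he2 : e.degree = 2 := by
    rcases Nat.lt_or_ge e.degree 2 with h | h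
    · exact absurd ⟨i0, e, by omega, hne⟩ h1
    · omega
  set Q := qp P0 (f i0) with hQ
  have hQh : Q.IsHomogeneous 2 := MvPolynomial.homogeneousComponent_isHomogeneous 2 _
  have hQ0 : Q ≠ 0 := by
    intro h
    have h3 : MvPolynomial.coeff e Q = MvPolynomial.coeff e (tay P0 (f i0)) := by
      rw [hQ]
      unfold qp
      rw [MvPolynomial.coeff_homogeneousComponent, if_pos he2]
    rw [h, MvPolynomial.coeff_zero] at h3
    exact hne h3.symm
  obtain ⟨v, hv⟩ : ∃ v : Fin N → ℂ, MvPolynomial.eval v Q ≠ 0 := by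
    by_contra hcon
    push Not at hcon
    exact hQ0 (MvPolynomial.funext fun x => by rw [hcon x, map_zero])
  obtain ⟨c, hc⟩ : ∃ c, v c ≠ 0 := by
    by_contra hcon
    push Not at hcon
    apply hv
    have h3 : v = fun a => (0 : ℂ) * v a := funext fun a => by rw [hcon a, mul_zero]
    rw [h3, Z7_hom hQh]
    ring
  obtain ⟨g, hg⟩ : ∃ g : Fin d → Fin N, ∀ a, a ≠ c → ∃ i, g i = a := by
    obtain ⟨N', rfl⟩ : ∃ N', N = N' + 1 := ⟨N - 1, by have := c.2; omega⟩
    refine ⟨fun i => if h : (i : ℕ) < N' then c.succAbove ⟨i, h⟩ else c, fun a ha => ?_⟩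
    obtain ⟨z, hz⟩ := Fin.exists_succAbove_eq ha
    refine ⟨⟨z, by have := z.2; omega⟩, ?_⟩
    simp only [z.2, dite_true]
    exact hz
  refine ⟨fun i b => (if b = g i then v c else 0) - (if b = c then v (g i) else 0), ?_⟩
  intro w hw hl
  have h4 : ∀ a, v c * w a = v a * w c := by
    intro a
    by_cases ha : a = c
    · rw [ha]
    · obtain ⟨i, hi⟩ := hg a ha
      have h5 := hl i
      simp only [sub_mul, ite_mul, zero_mul, Finset.sum_sub_distrib, Finset.sum_ite_eq',
        Finset.mem_univ, if_true] at h5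
      rw [hi] at h5
      exact sub_eq_zero.1 h5
  have h6 : w = fun a => (w c / v c) * v a := by
    funext a
    rw [div_mul_eq_mul_div, eq_div_iff hc, mul_comm (w a), h4 a, mul_comm]
  have h7 : MvPolynomial.eval w Q = 0 := by
    have := hw i0
    rwa [MvPolynomial.aeval_eq_eval] at this
  rw [h6, Z7_hom hQh] at h7
  have h8 : w c / v c = 0 := by
    rcases mul_eq_zero.1 h7 with h | h
    · exact pow_eq_zero_iff (two_ne_zero) |>.1 h
    · exact absurd h hv
  rw [h6, h8]
  funext a
  simp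

end MP2619.Q6
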