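import Pool.Agent.Lib.MP_2619d0_ag.Z.Z0

/-!
Row z-1: the dimension of a cone which meets a linear subspace of codimension `d` in zero
-/

set_option autoImplicit false

namespace MP2619.Q6

open scoped NNReal
open IntermediateField MP2619.R MP2619.N Pool.Agent.Lib.MP_2619d0_ag Pool.Agent.Lib.MP_2619d0_ag.T
  MP2619.Q5

private theorem Z1_trdeg {κ : Type} [Field κ] {N : ℕ} {Ω : Type} [Field Ω] [Algebra κ Ω]
    (κ1 : IntermediateField κ Ω) (w : Fin N → Ω) (hw : ∀ a, IsIntegral κ1 (w a)) :
    Algebra.trdeg κ (adjoin κ (Set.range w)) ≤ Algebra.trdeg κ κ1 := by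
  let A : IntermediateField κ1 Ω := algebraicClosure κ1 Ω
  have h1 : adjoin κ (Set.range w) ≤ A.restrictScalars κ := by
    rw [adjoin_le_iff]
    rintro _ ⟨a, rfl⟩
    exact (mem_algebraicClosure_iff.2 (hw a).isAlgebraic : w a ∈ algebraicClosure κ1 Ω)
  have h2 : Algebra.trdeg κ (adjoin κ (Set.range w)) ≤ Algebra.trdeg κ (A.restrictScalars κ) :=
    _root_.trdeg_le_of_injective (inclusion h1) (inclusion h1).injective
  have h3 : Algebra.trdeg κ κ1 + Algebra.trdeg κ1 A = Algebra.trdeg κ A := _root_.trdeg_add_eq κ κ1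
  have h4 : Algebra.trdeg κ1 A = 0 := trdeg_eq_zero
  rw [h4, add_zero] at h3
  rw [h3]
  exact h2

private theorem Z1_smul {κ : Type} [Field κ] {N m : ℕ} {P : MvPolynomial (Fin N) κ} (hP : P.IsHomogeneous m)
    {Ω : Type} [Field Ω] [Algebra κ Ω] (c : Ω) (w : Fin N → Ω) :
    MvPolynomial.aeval (c • w) P = c ^ m * MvPolynomial.aeval w P := by
  rw [MvPolynomial.aeval_def, MvPolynomial.aeval_def, MvPolynomial.eval₂_eq', MvPolynomial.eval₂_eq', Finset.mul_sum]
  refine Finset.sum_congr rfl fun e he => ?_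
  have h1 : ∑ i, e i = m := by
    have h0 := hP (MvPolynomial.mem_support_iff.1 he)
    rw [← h0, Finsupp.weight_apply, Finsupp.sum_fintype]
    · exact Finset.sum_congr rfl fun i _ => (mul_one (e i)).symm
    · intro i
      exact zero_smul ℕ _
  have h2 : ∏ i, (c • w) i ^ e i = c ^ m * ∏ i, w i ^ e i := by
    rw [← h1, ← Finset.prod_pow_eq_pow_sum, ← Finset.prod_mul_distrib]
    refine Finset.prod_congr rfl fun i _ => ?_
    rw [Pi.smul_apply, smul_eq_mul, mul_pow]
  rw [h2]
  ring

private theorem Z1_place {κ : Type} [Field κ] {N d r : ℕ} (Q : Fin r → MvPolynomial (Fin N) κ)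
    (hQ : ∀ j, (Q j).IsHomogeneous 2) (Λ : Fin d → Fin N → κ) (h : Triv Q Λ) {Ω : Type} [Field Ω]
    [Algebra κ Ω] (w : Fin N → Ω) (hw : ∀ j, MvPolynomial.aeval w (Q j) = 0)
    (V : ValuationSubring Ω) (hκ : ∀ c : κ, algebraMap κ Ω c ∈ V)
    (hL : ∀ i, ∑ a, algebraMap κ Ω (Λ i a) * w a ∈ V) (a : Fin N) : w a ∈ V := by
  by_contra ha
  obtain ⟨b, -, hb⟩ := Finset.exists_max_image Finset.univ (fun a => V.valuation (w a))
    ⟨a, Finset.mem_univ a⟩
  have hb1 : 1 < V.valuation (w b) := by
    rw [← V.valuation_le_one_iff, not_le] at ha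
    exact lt_of_lt_of_le ha (hb a (Finset.mem_univ a))
  have hb0 : w b ≠ 0 := by
    intro h0
    rw [h0, map_zero] at hb1
    exact not_lt_zero hb1
  have hu : ∀ c, w c / w b ∈ V := by
    intro c
    rw [← V.valuation_le_one_iff, map_div₀]
    exact div_le_one_of_le₀ (hb c (Finset.mem_univ c)) zero_le
  let φ : κ →+* V := (algebraMap κ Ω).codRestrict V.toSubring hκ
  let _ : Algebra κ V := φ.toAlgebra
  have tV : IsScalarTower κ V Ω := IsScalarTower.of_algebraMap_eq fun _ => rfl
  let u : Fin N → V := fun c => ⟨w c / w b, hu c⟩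
  have huc : ∀ c, (algebraMap V Ω (u c)) = w c * (w b)⁻¹ := fun c => div_eq_mul_inv _ _
  have hinj : Function.Injective (algebraMap V Ω) := fun x y hxy => Subtype.ext hxy
  have h1 : (fun c => IsLocalRing.residue V (u c)) = 0 := by
    refine h (IsLocalRing.ResidueField V) (fun c => IsLocalRing.residue V (u c)) ?_ ?_
    · intro j
      have e1 : MvPolynomial.aeval u (Q j) = 0 := by
        apply hinj
        rw [map_zero, ← MvPolynomial.aeval_algebraMap_apply (A := V) Ω]
        have e2 : (⇑(algebraMap V Ω) ∘ u) = (w b)⁻¹ • w := by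
          funext c
          rw [Function.comp_apply, huc, Pi.smul_apply, smul_eq_mul, mul_comm]
        rw [e2, Z1_smul (hQ j), hw, mul_zero]
      have e4 := MvPolynomial.aeval_algebraMap_apply (A := V) (IsLocalRing.ResidueField V) u (Q j)
      rw [e1, map_zero] at e4
      exact e4
    · intro i
      have e1 : (∑ a, algebraMap κ V (Λ i a) * u a) ∈ IsLocalRing.maximalIdeal V := by
        rw [ValuationSubring.valuation_lt_one_iff]
        have e2 : ((∑ a, algebraMap κ V (Λ i a) * u a : V) : Ω) =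
            (∑ a, algebraMap κ Ω (Λ i a) * w a) * (w b)⁻¹ := by
          change algebraMap V Ω (∑ a, algebraMap κ V (Λ i a) * u a) = _
          rw [map_sum, Finset.sum_mul]
          refine Finset.sum_congr rfl fun a _ => ?_
          rw [map_mul, huc, ← IsScalarTower.algebraMap_apply κ V Ω, mul_assoc]
        rw [e2, map_mul, map_inv₀]
        have e3 : V.valuation (∑ a, algebraMap κ Ω (Λ i a) * w a) ≤ 1 :=
          (V.valuation_le_one_iff _).2 (hL i)
        have e4 : (V.valuation (w b))⁻¹ < 1 := inv_lt_one_of_one_lt₀ hb1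
        exact (mul_le_of_le_one_left' e3).trans_lt e4
      have e5 := (IsLocalRing.residue_eq_zero_iff _).2 e1
      rw [map_sum] at e5
      rw [← e5]
      refine Finset.sum_congr rfl fun a _ => ?_
      rw [map_mul]
      rfl
  have h2 := congrFun h1 b
  have h3 : u b = 1 := Subtype.ext (div_self hb0)
  simp only [h3, map_one, Pi.zero_apply] at h2
  exact one_ne_zero h2

/-- Suppose not. Let `κ1 = adjoin κ (range of the d values Λ i (w))` (transcendence degree `≤ d`, see `trdeg_adjoin_finset`, Q5). Some `w a` is transcendental over `κ1` (otherwise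
`adjoin κ (range w)` is algebraic over `κ1`). In the subring `A` of `Ω` generated by `κ1` and `(w a)⁻¹` the ideal generated by `(w a)⁻¹` is proper (it is a polynomial ring over `κ1`), so
(`Ideal.image_subset_nonunits_valuationSubring`) there is a valuation subring `V` of `Ω` with `κ1 ≤ V` and `V.valuation (w a)⁻¹ < 1`. Let `V.valuation (w b)` be maximal among the `w _`, it is
`> 1`. Then `w c / w b ∈ V`; let `u c` be the residues (in `IsLocalRing.ResidueField V`, a `κ`-algebra): `u b = 1`, `Q j (u) = 0` (`hQ`: `Q j (w / w b) = (w b)⁻¹ ^ 2 * Q j (w) = 0`), and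
`∑ a, Λ i a * u a = 0` because `(∑ a, Λ i a * w a) / w b` has valuation `< 1`. Contradiction to `h`. -/
theorem triv_trdeg {κ : Type} [Field κ] {N d r : ℕ} (Q : Fin r → MvPolynomial (Fin N) κ)
    (hQ : ∀ j, (Q j).IsHomogeneous 2) (Λ : Fin d → Fin N → κ) (h : Triv Q Λ) {Ω : Type} [Field Ω]
    [Algebra κ Ω] (w : Fin N → Ω) (hw : ∀ j, MvPolynomial.aeval w (Q j) = 0) :
    Algebra.trdeg κ (adjoin κ (Set.range w)) ≤ d := by
  let L : Fin d → Ω := fun i => ∑ a, algebraMap κ Ω (Λ i a) * w a
  refine (Z1_trdeg (adjoin κ (Set.range L)) w fun a => ?_).trans (trdeg_adjoin_range L)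
  have h1 : w a ∈ (⨅ V : {V : ValuationSubring Ω //
      ((adjoin κ (Set.range L) : IntermediateField κ Ω) : Set Ω) ⊆ V.toSubring}, V.1.toSubring) := by
    rw [Subring.mem_iInf]
    rintro ⟨V, hV⟩
    refine Z1_place Q hQ Λ h w hw V (fun c => ?_) (fun i => ?_) a
    · exact hV (IntermediateField.algebraMap_mem _ c)
    · exact hV (subset_adjoin _ _ ⟨i, rfl⟩)
  rw [iInf_valuationSubring_superset] at h1
  have h2 : IsIntegral (Subring.closure ((adjoin κ (Set.range L) : IntermediateField κ Ω) : Set Ω)) (w a) := h1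
  have h3 : Subring.closure ((adjoin κ (Set.range L) : IntermediateField κ Ω) : Set Ω) =
      (adjoin κ (Set.range L)).toSubfield.toSubring := Subring.closure_eq _
  rw [h3] at h2
  exact h2

end MP2619.Q6
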