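import Pool.Agent.Lib.MP_2619d0_ag.Y.N5T
import Pool.Agent.Lib.MP_2619d0_ag.Z.Z0

/-!
Row z-2: generic linear forms
-/

set_option autoImplicit false

namespace MP2619.Q6

open scoped NNReal
open IntermediateField MP2619.R MP2619.N Pool.Agent.Lib.MP_2619d0_ag Pool.Agent.Lib.MP_2619d0_ag.T
  MP2619.Q5

/-- a specialization of a subring of a field extends to a place -/
private theorem Z2_val {P E Ω : Type} [CommRing P] [Field E] [Field Ω] (φ : P →+* Ω)
    (hφ : Function.Injective φ) (ε : P →+* E) :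
    ∃ (V : ValuationSubring Ω) (α : P →+* V), (∀ p, (α p : Ω) = φ p) ∧
      (∀ p, IsLocalRing.residue V (α p) = 0 ↔ ε p = 0) := by
  classical
  set B : Subring Ω := φ.range with hB
  set e : P ≃+* B := RingEquiv.ofBijective φ.rangeRestrict
    ⟨fun x y h => hφ (congrArg Subtype.val h), φ.rangeRestrict_surjective⟩ with he
  set ε' : B →+* E := ε.comp e.symm.toRingHom with hε
  have hε_apply : ∀ p, ε' (e p) = ε p := by
    intro p
    simp [hε]
  set I : Ideal B := RingHom.ker ε' with hI
  have : I.IsPrime := RingHom.ker_isPrime ε'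
  obtain ⟨V, hV, hVloc⟩ := LocalSubring.exists_le_valuationSubring (LocalSubring.ofPrime B I)
  set ι : (LocalSubring.ofPrime B I).toSubring →+* V.toLocalSubring.toSubring :=
    Subring.inclusion hV with hι
  set α' : P →+* V.toLocalSubring.toSubring :=
    ι.comp ((algebraMap B (LocalSubring.ofPrime B I).toSubring).comp e.toRingHom) with hα'
  have hα'_apply : ∀ p, ((α' p : V.toLocalSubring.toSubring) : Ω) = φ p := by
    intro p
    rfl
  have hunit : ∀ p, IsUnit (α' p) ↔ ε p ≠ 0 := by
    intro p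
    have h1 : IsUnit (α' p) ↔
        IsUnit (algebraMap B (LocalSubring.ofPrime B I).toSubring (e p)) := by
      constructor
      · intro h
        exact hVloc.map_nonunit _ h
      · intro h
        exact h.map ι
    rw [h1, IsLocalization.AtPrime.isUnit_to_map_iff (LocalSubring.ofPrime B I).toSubring I]
    rw [Ideal.mem_primeCompl_iff, hI, RingHom.mem_ker, hε_apply]
  refine ⟨V, α', hα'_apply, fun p => ?_⟩
  rw [IsLocalRing.residue_eq_zero_iff, IsLocalRing.mem_maximalIdeal, mem_nonunits_iff]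
  have := hunit p
  constructor
  · intro h
    by_contra h2
    exact h (this.mpr h2)
  · intro h h2
    exact (this.mp h2) h

/-- a point over a field gives a complex point, if the coefficients have the same relations -/
private theorem Z2_hom {P L : Type} [CommRing P] [Field L] (ρ : P →+* L) (ε : P →+* ℂ)
    (h : ∀ p, ρ p = 0 ↔ ε p = 0) {N : ℕ} (u : Fin N → L) :
    ∃ (D : Subring L) (β : P →+* D) (uD : Fin N → D) (ψ : D →+* ℂ),
      (∀ p, (β p : L) = ρ p) ∧ (∀ a, (uD a : L) = u a) ∧ ∀ p, ψ (β p) = ε p := by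
  classical
  let I : Ideal P := RingHom.ker ρ
  have hIp : I.IsPrime := RingHom.ker_isPrime ρ
  let ρ1 : P ⧸ I →+* L := Ideal.Quotient.lift I ρ (fun a ha => ha)
  let ε1 : P ⧸ I →+* ℂ := Ideal.Quotient.lift I ε (fun a ha => (h a).1 ha)
  have hρ1 : Function.Injective ρ1 := by
    rw [injective_iff_map_eq_zero]
    intro x hx
    obtain ⟨p, rfl⟩ := Ideal.Quotient.mk_surjective x
    have hx' : ρ p = 0 := hx
    exact Ideal.Quotient.eq_zero_iff_mem.2 hx'
  have hε1 : Function.Injective ε1 := by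
    rw [injective_iff_map_eq_zero]
    intro x hx
    obtain ⟨p, rfl⟩ := Ideal.Quotient.mk_surjective x
    have hx' : ε p = 0 := hx
    exact Ideal.Quotient.eq_zero_iff_mem.2 ((h p).2 hx')
  let k1 : Type := FractionRing (P ⧸ I)
  let ρ2 : k1 →+* L := IsFractionRing.lift hρ1
  let ε2 : k1 →+* ℂ := IsFractionRing.lift hε1
  let aL : Algebra k1 L := ρ2.toAlgebra
  let aC : Algebra k1 ℂ := ε2.toAlgebra
  let B : Subalgebra k1 L := Algebra.adjoin k1 (Set.range u)
  have hft : Algebra.FiniteType k1 B :=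
    B.fg_iff_finiteType.1 (Subalgebra.fg_def.2 ⟨_, Set.finite_range u, rfl⟩)
  obtain ⟨ψ⟩ : Nonempty (B →ₐ[k1] ℂ) := exists_hom_C
  refine ⟨B.toSubring, (algebraMap k1 B).comp ((algebraMap (P ⧸ I) k1).comp (Ideal.Quotient.mk I)),
    fun a => ⟨u a, Algebra.subset_adjoin ⟨a, rfl⟩⟩, (ψ : B →+* ℂ), ?_, fun a => rfl, ?_⟩
  · intro p
    have h1 : ρ2 (algebraMap (P ⧸ I) k1 (Ideal.Quotient.mk I p)) = ρ1 (Ideal.Quotient.mk I p) :=
      IsFractionRing.lift_algebraMap hρ1 _
    exact h1
  · intro p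
    have h1 : ε2 (algebraMap (P ⧸ I) k1 (Ideal.Quotient.mk I p)) = ε1 (Ideal.Quotient.mk I p) :=
      IsFractionRing.lift_algebraMap hε1 _
    have h2 := ψ.commutes (algebraMap (P ⧸ I) k1 (Ideal.Quotient.mk I p))
    exact h2.trans h1

/-- the coordinate of the largest value -/
private theorem Z2_coord {Ω : Type} [Field Ω] (V : ValuationSubring Ω) {N : ℕ} {w : Fin N → Ω}
    (hw : w ≠ 0) : ∃ c, w c ≠ 0 ∧ ∀ a, w a * (w c)⁻¹ ∈ V := by
  obtain ⟨a0, ha0⟩ : ∃ a, w a ≠ 0 := by
    by_contra hc
    push Not at hc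
    exact hw (funext hc)
  obtain ⟨c, -, hc⟩ := Finset.exists_max_image Finset.univ (fun a => V.valuation (w a))
    ⟨a0, Finset.mem_univ _⟩
  have hc0 : w c ≠ 0 := by
    intro h0
    have h1 := hc a0 (Finset.mem_univ _)
    simp only [h0, map_zero] at h1
    have h2 : V.valuation (w a0) = 0 := le_antisymm h1 zero_le
    exact ha0 ((map_eq_zero V.valuation).1 h2)
  refine ⟨c, hc0, fun a => ?_⟩
  rw [← V.valuation_le_one_iff, map_mul, map_inv₀]
  have h3 : V.valuation (w c) ≠ 0 := fun h => hc0 ((map_eq_zero V.valuation).1 h)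
  calc V.valuation (w a) * (V.valuation (w c))⁻¹ ≤ V.valuation (w c) * (V.valuation (w c))⁻¹ :=
        mul_le_mul_left (hc a (Finset.mem_univ _)) _
    _ = 1 := mul_inv_cancel₀ h3

/-- Let `Ω` be an extension of `κ1` and `w ≠ 0` a common zero over `Ω`. `A' =` the image in `Ω` of `MvPolynomial (Fin d × Fin N) A` (`X q ↦ Λ q.1 q.2`), an injective map by `hΛ`, so there is
a ring homomorphism `g' : A' → ℂ` with `g' = g` on `A` and `g' (Λ i a) = Λ0 i a`; `I = ker g'`, a prime ideal. By `LocalSubring.exists_le_valuationSubring` for `LocalSubring.ofPrime A' I` there is a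
valuation subring `V` of `Ω` with `A' ≤ V` and, for `b ∈ A'`, `V.valuation b < 1 ↔ g' b = 0`. Divide `w` by the coordinate `w c` of maximal value: `w a / w c ∈ V`, residues `u a` in
`L = IsLocalRing.ResidueField V`, `u c = 1`; `u` is a common zero of the reductions of `Q j` (`hQ`) and of `Λ i`. `R1 = A' / I` embeds in `L` and in `ℂ`; `k1 = FractionRing R1` (algebra structures on `L` and `ℂ`). The
`k1`-algebra `Algebra.adjoin k1 (range u)` of `L` is of finite type, so it has a `k1`-algebra homomorphism to `ℂ` (`exists_hom_C`, Y/N5T.lean). The image of `u` is a common zero over `ℂ`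
with coordinate `c` equal to one: contradiction to `h`. -/
theorem triv_gen {k0 κ : Type} [Field k0] [Field κ] [Algebra k0 κ] [Algebra k0 ℂ]
    (A : Subalgebra k0 κ) (g : A →ₐ[k0] ℂ) {N d r : ℕ} (Q : Fin r → MvPolynomial (Fin N) A)
    (hQ : ∀ j, (Q j).IsHomogeneous 2) (Λ0 : Fin d → Fin N → ℂ)
    (h : ∀ w : Fin N → ℂ, (∀ j, MvPolynomial.aeval w (MvPolynomial.map (g : A →+* ℂ) (Q j)) = 0) →
      (∀ i, ∑ a, Λ0 i a * w a = 0) → w = 0)
    {κ1 : Type} [Field κ1] [Algebra κ κ1] (Λ : Fin d → Fin N → κ1)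
    (hΛ : AlgebraicIndependent κ (fun q : Fin d × Fin N => Λ q.1 q.2)) :
    Triv (fun j => MvPolynomial.map ((algebraMap κ κ1).comp (A.val : A →+* κ)) (Q j)) Λ := by
  intro Ω _ _ w hw1 hw2
  by_contra hw
  classical
  let s : κ1 →+* Ω := algebraMap κ1 Ω
  let φ0 : MvPolynomial (Fin d × Fin N) A →+* κ1 :=
    ((MvPolynomial.aeval (fun q : Fin d × Fin N => Λ q.1 q.2) :
      MvPolynomial (Fin d × Fin N) κ →ₐ[κ] κ1) : MvPolynomial (Fin d × Fin N) κ →+* κ1).comp
      (MvPolynomial.map (A.val : A →+* κ))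
  have hφ0 : Function.Injective φ0 := by
    have h1 : Function.Injective (MvPolynomial.map (σ := Fin d × Fin N) (A.val : A →+* κ)) :=
      MvPolynomial.map_injective _ Subtype.val_injective
    have h2 : Function.Injective (MvPolynomial.aeval (fun q : Fin d × Fin N => Λ q.1 q.2) :
      MvPolynomial (Fin d × Fin N) κ →ₐ[κ] κ1) := hΛ
    intro x y hxy
    exact h1 (h2 hxy)
  let φ : MvPolynomial (Fin d × Fin N) A →+* Ω := s.comp φ0
  have hφ : Function.Injective φ := s.injective.comp hφ0
  let ε : MvPolynomial (Fin d × Fin N) A →+* ℂ :=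
    MvPolynomial.eval₂Hom (g : A →+* ℂ) (fun q : Fin d × Fin N => Λ0 q.1 q.2)
  have hεC : ∀ x : A, ε (MvPolynomial.C x) = g x := fun x => by
    simp [ε]
  have hεX : ∀ q : Fin d × Fin N, ε (MvPolynomial.X q) = Λ0 q.1 q.2 := fun q => by
    simp [ε]
  have hφC : ∀ x : A, φ (MvPolynomial.C x) = s (algebraMap κ κ1 (x : κ)) := fun x => by
    simp [φ, φ0]
  have hφX : ∀ q : Fin d × Fin N, φ (MvPolynomial.X q) = s (Λ q.1 q.2) := fun q => by
    simp [φ, φ0]
  obtain ⟨V, α, hα, hres⟩ := Z2_val φ hφ ε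
  obtain ⟨c, hc0, hc⟩ := Z2_coord V hw
  let v : Fin N → V := fun a => ⟨w a * (w c)⁻¹, hc a⟩
  let u : Fin N → IsLocalRing.ResidueField V := fun a => IsLocalRing.residue V (v a)
  have huc : u c = 1 := by
    have h1 : v c = 1 := Subtype.ext (mul_inv_cancel₀ hc0)
    show IsLocalRing.residue V (v c) = 1
    rw [h1, map_one]
  -- the equations over `V`
  have hVinj : Function.Injective (V.subtype : V →+* Ω) := Subtype.val_injective
  have hQV : ∀ j, MvPolynomial.eval₂ (α.comp MvPolynomial.C) v (Q j) = 0 := by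
    intro j
    apply hVinj
    rw [map_zero, MvPolynomial.eval₂_comp_left]
    have h1 : MvPolynomial.eval₂ ((V.subtype : V →+* Ω).comp (α.comp MvPolynomial.C))
        (V.subtype ∘ v) (Q j) =
        MvPolynomial.eval₂ (s.comp ((algebraMap κ κ1).comp (A.val : A →+* κ)))
          (fun a => (w c)⁻¹ * w a) (Q j) := by
      congr 1
      · ext x
        show ((α (MvPolynomial.C x) : V) : Ω) = _
        rw [hα, hφC]
        rfl
      · funext a
        show w a * (w c)⁻¹ = _
        rw [mul_comm]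
    rw [h1]
    have h2 := hw1 j
    rw [MvPolynomial.aeval_def, MvPolynomial.eval₂_map] at h2
    have h3 : MvPolynomial.eval₂ (s.comp ((algebraMap κ κ1).comp (A.val : A →+* κ)))
        (fun a => (w c)⁻¹ * w a) (Q j) = (w c)⁻¹ ^ 2 *
        MvPolynomial.eval₂ (s.comp ((algebraMap κ κ1).comp (A.val : A →+* κ))) w (Q j) := by
      rw [MvPolynomial.eval₂_eq', MvPolynomial.eval₂_eq', Finset.mul_sum]
      refine Finset.sum_congr rfl fun m hm => ?_
      have h4 : ∑ i, m i = 2 := by
        have h5 := (hQ j) (MvPolynomial.mem_support_iff.1 hm)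
        rw [← h5, Finsupp.weight_apply, Finsupp.sum_fintype]
        · simp
        · simp
      have h6 : ∏ i, ((w c)⁻¹ * w i) ^ m i = (w c)⁻¹ ^ 2 * ∏ i, w i ^ m i := by
        rw [← h4, ← Finset.prod_pow_eq_pow_sum, ← Finset.prod_mul_distrib]
        exact Finset.prod_congr rfl fun i _ => mul_pow _ _ _
      rw [h6]
      ring
    rw [h3]
    have h7 : MvPolynomial.eval₂ (s.comp ((algebraMap κ κ1).comp (A.val : A →+* κ))) w (Q j) = 0 := h2
    rw [h7, mul_zero]
  have hLV : ∀ i, ∑ a, α (MvPolynomial.X (i, a)) * v a = 0 := by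
    intro i
    apply hVinj
    rw [map_zero, map_sum]
    have h1 : ∀ a, (V.subtype : V →+* Ω) (α (MvPolynomial.X (i, a)) * v a) =
        (s (Λ i a) * w a) * (w c)⁻¹ := by
      intro a
      rw [map_mul]
      show ((α (MvPolynomial.X (i, a)) : V) : Ω) * (w a * (w c)⁻¹) = _
      rw [hα, hφX]
      ring
    rw [Finset.sum_congr rfl fun a _ => h1 a, ← Finset.sum_mul]
    have h2 := hw2 i
    have h3 : ∑ a, s (Λ i a) * w a = 0 := h2
    rw [h3, zero_mul]
  -- the residue field
  obtain ⟨D, β, uD, ψ, hβ, huD, hψ⟩ := Z2_hom ((IsLocalRing.residue V).comp α) ε hres u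
  have hDinj : Function.Injective (D.subtype : D →+* IsLocalRing.ResidueField V) :=
    Subtype.val_injective
  have hQD : ∀ j, MvPolynomial.eval₂ (β.comp MvPolynomial.C) uD (Q j) = 0 := by
    intro j
    apply hDinj
    rw [map_zero, MvPolynomial.eval₂_comp_left]
    have h1 : (D.subtype : D →+* IsLocalRing.ResidueField V).comp (β.comp MvPolynomial.C) =
        (IsLocalRing.residue V).comp (α.comp MvPolynomial.C) := by
      ext x
      exact hβ (MvPolynomial.C x)
    have h2 : (D.subtype : D → IsLocalRing.ResidueField V) ∘ uD = (IsLocalRing.residue V) ∘ v := by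
      funext a
      exact huD a
    have h3 := congrArg (IsLocalRing.residue V) (hQV j)
    rw [map_zero, MvPolynomial.eval₂_comp_left] at h3
    rw [h1, h2]
    exact h3
  have hLD : ∀ i, ∑ a, β (MvPolynomial.X (i, a)) * uD a = 0 := by
    intro i
    apply hDinj
    rw [map_zero, map_sum]
    have h3 := congrArg (IsLocalRing.residue V) (hLV i)
    rw [map_zero, map_sum] at h3
    rw [← h3]
    refine Finset.sum_congr rfl fun a _ => ?_
    rw [map_mul, map_mul]
    show (β (MvPolynomial.X (i, a)) : IsLocalRing.ResidueField V) * (uD a : IsLocalRing.ResidueField V) = _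
    rw [hβ, huD]
    rfl
  -- the complex point
  have hfin := h (fun a => ψ (uD a)) ?_ ?_
  · have h1 := congrFun hfin c
    have h2 : uD c = 1 := by
      apply hDinj
      rw [map_one]
      exact (huD c).trans huc
    have h3 : ψ (uD c) = 0 := h1
    rw [h2, map_one] at h3
    exact one_ne_zero h3
  · intro j
    have h1 := congrArg ψ (hQD j)
    rw [map_zero, MvPolynomial.eval₂_comp_left] at h1
    rw [MvPolynomial.aeval_def, MvPolynomial.eval₂_map]
    have h2 : ψ.comp (β.comp MvPolynomial.C) = (algebraMap ℂ ℂ).comp (g : A →+* ℂ) := by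
      ext x
      show ψ (β (MvPolynomial.C x)) = g x
      rw [hψ, hεC]
    rw [← h2]
    exact h1
  · intro i
    have h1 := congrArg ψ (hLD i)
    rw [map_zero, map_sum] at h1
    rw [← h1]
    refine Finset.sum_congr rfl fun a _ => ?_
    rw [map_mul, hψ, hεX]

end MP2619.Q6
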