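import Pool.Agent.Lib.MP_2619d0_ag.Z.Z0

/-!
Row z-3: independent parameters do not change the transcendence degree
-/

set_option autoImplicit false

namespace MP2619.Q6

open scoped NNReal
open IntermediateField MP2619.R MP2619.N Pool.Agent.Lib.MP_2619d0_ag Pool.Agent.Lib.MP_2619d0_ag.T
  MP2619.Q5

private theorem Z3_alg {K N : Type} [Field K] [Field N] [Algebra K N] (S : Set N) :
    Algebra.IsAlgebraic (Algebra.adjoin K ((fun x : adjoin K S => (x : N)) ⁻¹' S)) (adjoin K S) := by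
  have key : ∀ r ∈ Algebra.adjoin K S, ∃ r' ∈ Algebra.adjoin K
      ((fun x : adjoin K S => (x : N)) ⁻¹' S), (r' : N) = r := by
    intro r hr
    have h1 : (Algebra.adjoin K ((fun x : adjoin K S => (x : N)) ⁻¹' S)).map (adjoin K S).val =
        Algebra.adjoin K S := by
      rw [AlgHom.map_adjoin]
      congr 1
      ext y
      constructor
      · rintro ⟨x, hx, rfl⟩
        exact hx
      · intro hy
        exact ⟨⟨y, subset_adjoin K S hy⟩, hy, rfl⟩
    rw [← h1] at hr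
    obtain ⟨r', hr', h2⟩ := hr
    exact ⟨r', hr', h2⟩
  refine ⟨fun x => ?_⟩
  obtain ⟨r, hr, s, hs, hx⟩ := mem_adjoin_iff_div.1 x.2
  obtain ⟨r', hr', h1⟩ := key r hr
  obtain ⟨s', hs', h2⟩ := key s hs
  have h3 : x = r' * s'⁻¹ := by
    apply Subtype.ext
    push_cast
    rw [hx, h1, h2, div_eq_mul_inv]
  rw [h3]
  have h4 : IsAlgebraic (Algebra.adjoin K ((fun x : adjoin K S => (x : N)) ⁻¹' S)) r' :=
    isAlgebraic_algebraMap (⟨r', hr'⟩ : Algebra.adjoin K ((fun x : adjoin K S => (x : N)) ⁻¹' S))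
  have h5 : IsAlgebraic (Algebra.adjoin K ((fun x : adjoin K S => (x : N)) ⁻¹' S)) s' :=
    isAlgebraic_algebraMap (⟨s', hs'⟩ : Algebra.adjoin K ((fun x : adjoin K S => (x : N)) ⁻¹' S))
  exact h4.mul h5.inv

private theorem Z3_trdeg {K N : Type} [Field K] [Field N] [Algebra K N] {ι : Type} [Fintype ι]
    (s : ι → N) : Algebra.trdeg K (adjoin K (Set.range s)) ≤ (Fintype.card ι : ℕ) := by
  have := Z3_alg (K := K) (Set.range s)
  refine (Algebra.IsAlgebraic.trdeg_le_cardinalMk (R := K) (A := adjoin K (Set.range s))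
    ((fun x : adjoin K (Set.range s) => (x : N)) ⁻¹' (Set.range s))).trans ?_
  have h1 : Cardinal.mk ↑((fun x : adjoin K (Set.range s) => (x : N)) ⁻¹' (Set.range s)) ≤
      Cardinal.mk (Set.range s) :=
    Cardinal.mk_preimage_of_injective _ _ Subtype.val_injective
  refine h1.trans (Cardinal.mk_range_le.trans ?_)
  rw [Cardinal.mk_fintype]

private theorem Z3_basis {κ N : Type} [Field κ] [Field N] [Algebra κ N] (m : ℕ)
    (hn : ¬ Algebra.trdeg κ N ≤ m) :
    ∃ b : Fin (m + 1) → N, AlgebraicIndependent κ b := by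
  obtain ⟨u, hb⟩ := exists_isTranscendenceBasis κ N
  have h1 := hb.cardinalMk_eq_trdeg
  have h2 : ((m + 1 : ℕ) : Cardinal) ≤ Cardinal.mk u := by
    rw [h1]
    rw [not_le] at hn
    have := Order.succ_le_of_lt hn
    rw [Cardinal.succ_natCast] at this
    exact_mod_cast this
  have h3 : Cardinal.mk (Fin (m + 1)) ≤ Cardinal.mk u := by
    simpa using h2
  obtain ⟨e⟩ := h3
  exact ⟨fun i => (e i).1, hb.1.comp e e.injective⟩

/-- Take `Ω1 = FractionRing (MvPolynomial (Fin d × Fin N) Ω)`, `κ1 = adjoin κ (range of the variables)`, `Λ` = the variables. -/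
theorem trdeg_of_gen {κ Ω : Type} [Field κ] [Field Ω] [Algebra κ Ω] {N d : ℕ} (w : Fin N → Ω)
    (h : ∀ (Ω1 : Type) [Field Ω1] [Algebra Ω Ω1] [Algebra κ Ω1] [IsScalarTower κ Ω Ω1]
      (κ1 : IntermediateField κ Ω1) (Λ : Fin d → Fin N → κ1),
      AlgebraicIndependent κ (fun q : Fin d × Fin N => Λ q.1 q.2) →
        Algebra.trdeg κ1 (adjoin κ1 (Set.range fun a => algebraMap Ω Ω1 (w a))) ≤ d) :
    Algebra.trdeg κ (adjoin κ (Set.range w)) ≤ d := by
  classical
  let R : Type := MvPolynomial (Fin d × Fin N) Ω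
  let Ω1 : Type := FractionRing (MvPolynomial (Fin d × Fin N) Ω)
  have tκ : IsScalarTower κ Ω Ω1 := inferInstance
  let X : Fin d × Fin N → Ω1 := fun q =>
    algebraMap (MvPolynomial (Fin d × Fin N) Ω) Ω1 (MvPolynomial.X q)
  have hX : AlgebraicIndependent Ω X :=
    (MvPolynomial.algebraicIndependent_X (Fin d × Fin N) Ω).map'
      (f := IsScalarTower.toAlgHom Ω (MvPolynomial (Fin d × Fin N) Ω) Ω1)
      (IsFractionRing.injective (MvPolynomial (Fin d × Fin N) Ω) Ω1)
  let κ1 : IntermediateField κ Ω1 := adjoin κ (Set.range X)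
  have hXκ : AlgebraicIndependent κ X := hX.restrictScalars (algebraMap κ Ω).injective
  have hΛ : AlgebraicIndependent κ (fun q : Fin d × Fin N =>
      (⟨X (q.1, q.2), subset_adjoin κ _ ⟨(q.1, q.2), rfl⟩⟩ : κ1)) :=
    AlgebraicIndependent.of_comp κ1.val hXκ
  have h1 := h Ω1 κ1 (fun i a => ⟨X (i, a), subset_adjoin κ _ ⟨(i, a), rfl⟩⟩) hΛ
  by_contra hn
  obtain ⟨b, hb⟩ := Z3_basis d hn
  have hb1 : AlgebraicIndependent κ (fun i => (b i : Ω)) :=
    hb.map' (f := (adjoin κ (Set.range w)).val) Subtype.val_injective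
  have hs := hb1.sumElim_comp hX
  set E := adjoin κ1 (Set.range fun a => algebraMap Ω Ω1 (w a)) with hE
  have hEκ : ∀ z ∈ adjoin κ (Set.range w), algebraMap Ω Ω1 z ∈ E := by
    intro z hz
    have h2 : algebraMap Ω Ω1 z ∈ (adjoin κ (Set.range w)).map (IsScalarTower.toAlgHom κ Ω Ω1) :=
      ⟨z, hz, rfl⟩
    rw [adjoin_map] at h2
    have h3 : adjoin κ ((IsScalarTower.toAlgHom κ Ω Ω1) '' Set.range w) ≤
        E.restrictScalars κ := by
      rw [adjoin_le_iff]
      rintro _ ⟨_, ⟨a, rfl⟩, rfl⟩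
      exact subset_adjoin κ1 _ ⟨a, rfl⟩
    exact h3 h2
  have hXE : ∀ q, X q ∈ E := fun q =>
    E.algebraMap_mem (⟨X q, subset_adjoin κ _ ⟨q, rfl⟩⟩ : κ1)
  set u : (Fin d × Fin N) ⊕ Fin (d + 1) → E :=
    Sum.elim (fun q => ⟨X q, hXE q⟩) (fun i => ⟨algebraMap Ω Ω1 (b i), hEκ _ (b i).2⟩) with hu
  have hu' : AlgebraicIndependent κ u := by
    refine AlgebraicIndependent.of_comp (E.val.restrictScalars κ) ?_
    convert hs using 1
    funext x
    rcases x with x | x <;> rfl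
  have h28 := hu'.cardinalMk_le_trdeg
  have hκ1 : Algebra.trdeg κ κ1 ≤ (Fintype.card (Fin d × Fin N) : ℕ) := Z3_trdeg X
  have hadd : Algebra.trdeg κ κ1 + Algebra.trdeg κ1 E = Algebra.trdeg κ E := trdeg_add_eq κ κ1
  have h3 : Cardinal.mk ((Fin d × Fin N) ⊕ Fin (d + 1)) =
      ((Fintype.card (Fin d × Fin N) + (d + 1) : ℕ) : Cardinal) := by
    rw [Cardinal.mk_fintype]
    simp only [Fintype.card_sum, Fintype.card_fin]
  rw [h3, ← hadd] at h28
  have h4 : Algebra.trdeg κ κ1 + Algebra.trdeg κ1 E ≤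
      ((Fintype.card (Fin d × Fin N) : ℕ) : Cardinal) + (d : Cardinal) :=
    add_le_add hκ1 h1
  have h5 := h28.trans h4
  have h6 : Fintype.card (Fin d × Fin N) + (d + 1) ≤ Fintype.card (Fin d × Fin N) + d := by
    exact_mod_cast h5
  omega

end MP2619.Q6
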