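import Pool.Agent.Lib.MP_2619d0_ag.Y.N5T
import Pool.Agent.Lib.MP_2619d0_ag.Z.Z1
import Pool.Agent.Lib.MP_2619d0_ag.Z.Z2
import Pool.Agent.Lib.MP_2619d0_ag.Z.Z3

/-!
Row z-8: from the complex numbers to all extensions
-/

set_option autoImplicit false

namespace MP2619.Q6

universe u

open scoped NNReal
open IntermediateField MP2619.R MP2619.N Pool.Agent.Lib.MP_2619d0_ag Pool.Agent.Lib.MP_2619d0_ag.T
  MP2619.T MP2619.Q5

private theorem Z8_prop {m N s : ℕ} (K : Bk m N s) {κ : Type} [Field κ] (P b : Fin N → κ)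
    (hb : K.Nz b) (h : ¬ ∃ c : Fin s → κ, ∀ j, P j = c (K.bl j) * b j) :
    ∃ j l, K.bl j = K.bl l ∧ P j * b l - P l * b j ≠ 0 := by
  by_contra hcon
  push Not at hcon
  apply h
  choose l hl hl0 using hb
  refine ⟨fun i => P (l i) / b (l i), fun j => ?_⟩
  have h1 := hcon j (l (K.bl j)) (hl _).symm
  have h2 := hl0 (K.bl j)
  rw [div_mul_eq_mul_div, eq_div_iff h2]
  exact sub_eq_zero.1 h1

private theorem Z8_hom {N : ℕ} {R S : Type} [CommRing R] [CommRing S] (f : R →+* S) (n : ℕ)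
    (p : MvPolynomial (Fin N) R) :
    MvPolynomial.map f (MvPolynomial.homogeneousComponent n p) =
      MvPolynomial.homogeneousComponent n (MvPolynomial.map f p) := by
  ext d
  rw [MvPolynomial.coeff_map, MvPolynomial.coeff_homogeneousComponent,
    MvPolynomial.coeff_homogeneousComponent, MvPolynomial.coeff_map]
  split_ifs <;> simp

/-- At every point of the closure of `p` some derivative of order at most one is not zero, or some derivative of order two, and then the common zeros of the quadratic parts have dimension `≤ D` or the point is a point over `k`. -/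
def Bk.Mult2Z {n N s : ℕ} (K : Bk n N s) (D : ℕ) {k M : Type} [Field k] [Field M] [Algebra k M]
    {r : ℕ} (f : Fin r → MvPolynomial (Fin N) k) (p : Fin N → M) : Prop :=
  ∀ (κ : Type) [Field κ] [Algebra k κ] (P0 : Fin N → κ), K.Nz P0 → K.Sp k p P0 →
    TayNe 1 f P0 ∨ (TayNe 2 f P0 ∧ (Zd f P0 D ∨ ∃ (b : Fin N → k) (c : Fin s → κ), K.Nz b ∧
      ∀ j, P0 j = c (K.bl j) * algebraMap k κ (b j)))

/-- Model: `mult2W_of_CB` in Q8/N5W.lean (its private lemmas `N5W_map`, `N5W_hom` are `tay_algHom`, `exists_hom_C` in Y/N5T.lean; copy `N5W_prop`). Given `κ`, `P0` with `¬ TayNe 1 f0 P0`: `TayNe 2 f0 P0` by `tayNe_of_CB` (Y/N5T.lean;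
`TayNe 1` implies `TayNe 2`, `TayNe.mono`). If `P0` is proportional (in every block) to a point of `T`: right alternative. Otherwise let `A` be the subalgebra of `κ` generated by the `P0 j`, the inverses `(P0 (J i))⁻¹` and
the inverses of the non-zero minors, `g : A →ₐ[k0] ℂ`, `P j = g (P0 j)` a complex point in the closure. As there: `P` is not one of the points of `T` (minors) and not `TayNe 1` (a derivative of order one which is not zero at
`P` is not zero at `P0`), so `ZL` holds at `P`. For `Zd f0 P0 D`: let `Ω`, `w` be given, `Q j` the homogeneous component of degree two of the Taylor polynomial of `f0 j` over the ring `A`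
(`aeval (fun j => C (PA j) + X j) (f0 j)`); its image under `g` is `qp P (map (f0 j))`, its image in `κ` is `qp P0 (f0 j)`. `trdeg_of_gen`: for `Ω1`, `κ1`, `Λ` use `triv_gen` (for `A`, `g`, `Q`, and the linear forms of
`ZL`) and `triv_trdeg` over `κ1`. -/
theorem mult2Z_of_CB {m N s D : ℕ} (K : Bk m N s) {k0 Q : Type} [Field k0] [Algebra k0 ℂ] [Field Q]
    [Algebra k0 Q] {n : ℕ} (f0 : Fin n → MvPolynomial (Fin N) k0) (p' : Fin N → Q)
    {L : Type u} [Field L] [Algebra ℂ L] (p : Fin N → L)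
    (hrel : ∀ (g : MvPolynomial (Fin N) k0) (d : Fin s → ℕ), K.MH g d →
      MvPolynomial.aeval p (MvPolynomial.map (algebraMap k0 ℂ) g) = 0 →
        MvPolynomial.aeval p' g = 0)
    (hgen : ∀ P : Fin N → ℂ,
      (∀ (g : MvPolynomial (Fin N) k0) (d : Fin s → ℕ), K.MH g d →
        MvPolynomial.aeval p (MvPolynomial.map (algebraMap k0 ℂ) g) = 0 →
          MvPolynomial.aeval P g = 0) →
      ∀ (g : MvPolynomial (Fin N) ℂ) (d : Fin s → ℕ), K.MH g d →
        MvPolynomial.aeval p g = 0 → MvPolynomial.aeval P g = 0)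
    (T : Finset (Fin N → ℂ)) (hTk : ∀ b ∈ T, ∃ b0 : Fin N → k0, ∀ j, algebraMap k0 ℂ (b0 j) = b j)
    (hT : ∀ b ∈ T, K.Nz b)
    (h : ∀ P0 : Fin N → ℂ, K.Nz P0 →
      (∀ (g : MvPolynomial (Fin N) ℂ) (d : Fin s → ℕ), K.MH g d →
        MvPolynomial.aeval p g = 0 → MvPolynomial.aeval P0 g = 0) →
      TayNe 1 (fun i => MvPolynomial.map (algebraMap k0 ℂ) (f0 i)) P0 ∨
        (TayNe 2 (fun i => MvPolynomial.map (algebraMap k0 ℂ) (f0 i)) P0 ∧
          (ZL (fun i => MvPolynomial.map (algebraMap k0 ℂ) (f0 i)) P0 D ∨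
            ∃ b ∈ T, ∃ c : Fin s → ℂ, ∀ j, P0 j = c (K.bl j) * b j))) :
    K.Mult2Z D f0 p' := by
  classical
  intro κ _ _ P0 hP0 hsp
  by_cases hcase : TayNe 1 f0 P0
  · exact Or.inl hcase
  right
  refine ⟨?_, ?_⟩
  · refine tayNe_of_CB (t := 2) K f0 p' p hrel hgen ?_ κ P0 hP0 hsp
    intro P hP hcl
    rcases h P hP hcl with h1 | h2
    · exact h1.mono (by norm_num)
    · exact h2.1
  by_cases hno : ∃ (b : Fin N → k0) (c : Fin s → κ), K.Nz b ∧
      ∀ j, P0 j = c (K.bl j) * algebraMap k0 κ (b j)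
  · exact Or.inr hno
  left
  choose J hJ hJ0 using hP0
  choose B hB using hTk
  have hBn : ∀ (b : Fin N → ℂ) (hb : b ∈ T), K.Nz (B b hb) := by
    intro b hb i
    obtain ⟨j, hj, hj0⟩ := hT b hb i
    refine ⟨j, hj, fun h0 => hj0 ?_⟩
    rw [← hB b hb j, h0, map_zero]
  have hno1 : ∀ (b : Fin N → ℂ) (hb : b ∈ T), ∃ j l, K.bl j = K.bl l ∧
      P0 j * algebraMap k0 κ (B b hb l) - P0 l * algebraMap k0 κ (B b hb j) ≠ 0 := by
    intro b hb
    refine Z8_prop K P0 (fun j => algebraMap k0 κ (B b hb j)) ?_ ?_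
    · intro i
      obtain ⟨j, hj, hj0⟩ := hBn b hb i
      exact ⟨j, hj, fun h0 => hj0 ((map_eq_zero _).1 h0)⟩
    · rintro ⟨c, hc⟩
      exact hno ⟨B b hb, c, hBn b hb, hc⟩
  choose j1 l1 hjl hne using hno1
  let δ : {b // b ∈ T} → κ := fun b => P0 (j1 b.1 b.2) * algebraMap k0 κ (B b.1 b.2 (l1 b.1 b.2)) -
    P0 (l1 b.1 b.2) * algebraMap k0 κ (B b.1 b.2 (j1 b.1 b.2))
  let A : Subalgebra k0 κ := Algebra.adjoin k0 ((Set.range P0 ∪ Set.range fun i => (P0 (J i))⁻¹) ∪
    Set.range fun b => (δ b)⁻¹)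
  have hP : ∀ j, P0 j ∈ A := fun j => Algebra.subset_adjoin (Or.inl (Or.inl ⟨j, rfl⟩))
  have hQ : ∀ i, (P0 (J i))⁻¹ ∈ A := fun i => Algebra.subset_adjoin (Or.inl (Or.inr ⟨i, rfl⟩))
  have hD : ∀ b, (δ b)⁻¹ ∈ A := fun b => Algebra.subset_adjoin (Or.inr ⟨b, rfl⟩)
  have hft : Algebra.FiniteType k0 A :=
    A.fg_iff_finiteType.1 (Subalgebra.fg_def.2
      ⟨_, ((Set.finite_range P0).union (Set.finite_range _)).union (Set.finite_range _), rfl⟩)
  obtain ⟨g⟩ : Nonempty (A →ₐ[k0] ℂ) := exists_hom_C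
  let PA : Fin N → A := fun j => ⟨P0 j, hP j⟩
  have hP1 : K.Nz (fun j => g (PA j)) := by
    intro i
    refine ⟨J i, hJ i, fun h0 => ?_⟩
    have h1 : PA (J i) * (⟨(P0 (J i))⁻¹, hQ i⟩ : A) = 1 := Subtype.ext (mul_inv_cancel₀ (hJ0 i))
    have h2 := congrArg g h1
    rw [map_mul, map_one, show g (PA (J i)) = 0 from h0, zero_mul] at h2
    exact zero_ne_one h2
  have hcl : ∀ (g' : MvPolynomial (Fin N) ℂ) (d : Fin s → ℕ), K.MH g' d →
      MvPolynomial.aeval p g' = 0 → MvPolynomial.aeval (fun j => g (PA j)) g' = 0 := by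
    refine hgen _ fun g0 d hg0 h0 => ?_
    have h1 := hsp g0 d hg0 (hrel g0 d hg0 h0)
    have h2 : MvPolynomial.aeval PA g0 = 0 := by
      have h3 := MvPolynomial.comp_aeval_apply PA A.val g0
      apply Subtype.ext
      exact h3.trans h1
    have h3 := MvPolynomial.comp_aeval_apply PA g g0
    rw [h2, map_zero] at h3
    exact h3.symm
  rcases h _ hP1 hcl with ⟨i, m, hm, hc⟩ | ⟨-, ⟨Λ0, hΛ0⟩ | ⟨b, hb, c, hc⟩⟩
  · exfalso
    refine hcase ⟨i, m, hm, fun h0 => hc ?_⟩
    have e1 := tay_algHom g PA (f0 i)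
    have e2 := tay_algHom A.val PA (f0 i)
    have h1 : MvPolynomial.coeff m (MvPolynomial.aeval
        (fun j => MvPolynomial.C (PA j) + MvPolynomial.X j : Fin N → MvPolynomial (Fin N) A)
        (f0 i)) = 0 := by
      have h2 := congrArg (MvPolynomial.coeff m) e2
      rw [MvPolynomial.coeff_map] at h2
      exact Subtype.ext (h2.trans h0)
    rw [MvPolynomial.aeval_map_algebraMap, ← e1, MvPolynomial.coeff_map, h1, map_zero]
  · -- the main case
    let QA : Fin n → MvPolynomial (Fin N) A := fun i => MvPolynomial.homogeneousComponent 2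
      (MvPolynomial.aeval
        (fun j => MvPolynomial.C (PA j) + MvPolynomial.X j : Fin N → MvPolynomial (Fin N) A)
        (f0 i))
    have hQA : ∀ i, (QA i).IsHomogeneous 2 := fun i =>
      MvPolynomial.homogeneousComponent_isHomogeneous 2 _
    have e1 : ∀ i, MvPolynomial.map (g : A →+* ℂ) (QA i) =
        qp (fun j => g (PA j)) (MvPolynomial.map (algebraMap k0 ℂ) (f0 i)) := by
      intro i
      show MvPolynomial.map (g : A →+* ℂ) (MvPolynomial.homogeneousComponent 2 _) =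
        MvPolynomial.homogeneousComponent 2 (MvPolynomial.aeval _ _)
      rw [Z8_hom, tay_algHom g PA (f0 i), MvPolynomial.aeval_map_algebraMap]
    have e2 : ∀ i, MvPolynomial.map (A.val : A →+* κ) (QA i) = qp P0 (f0 i) := by
      intro i
      show MvPolynomial.map (A.val : A →+* κ) (MvPolynomial.homogeneousComponent 2 _) =
        MvPolynomial.homogeneousComponent 2 (MvPolynomial.aeval _ _)
      rw [Z8_hom]
      have h1 := tay_algHom A.val PA (f0 i)
      rw [h1]
      rfl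
    intro Ω _ _ w hw
    refine trdeg_of_gen w ?_
    intro Ω1 _ _ _ _ κ1 Λ hΛ
    have htriv := triv_gen A g QA hQA Λ0 (by
      intro w' h1 h2
      refine hΛ0 w' (fun i => ?_) h2
      rw [← e1 i]
      exact h1 i) Λ hΛ
    refine triv_trdeg _ (fun j => (hQA j).map _) Λ htriv _ ?_
    intro j
    rw [← MvPolynomial.map_map, e2 j, MvPolynomial.aeval_map_algebraMap]
    have h3 := MvPolynomial.aeval_algebraMap_apply Ω1 w (qp P0 (f0 j))
    rw [hw j, map_zero] at h3
    exact h3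
  · -- the minor is invertible
    exfalso
    have h1 : PA (j1 b hb) * algebraMap k0 A (B b hb (l1 b hb)) -
        PA (l1 b hb) * algebraMap k0 A (B b hb (j1 b hb)) = (⟨δ ⟨b, hb⟩, by
          refine sub_mem (mul_mem (hP _) ?_) (mul_mem (hP _) ?_) <;>
          exact Subalgebra.algebraMap_mem _ _⟩ : A) := Subtype.ext rfl
    have h2 := congrArg g h1
    rw [map_sub, map_mul, map_mul, AlgHom.commutes, AlgHom.commutes, hB, hB,
      show g (PA (j1 b hb)) = _ from hc _, show g (PA (l1 b hb)) = _ from hc _, hjl b hb] at h2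
    have h3 : c (K.bl (l1 b hb)) * b (j1 b hb) * b (l1 b hb) -
        c (K.bl (l1 b hb)) * b (l1 b hb) * b (j1 b hb) = 0 := by ring
    rw [h3] at h2
    have h4 : ∀ hmem : δ ⟨b, hb⟩ ∈ A, g ⟨δ ⟨b, hb⟩, hmem⟩ * g ⟨(δ ⟨b, hb⟩)⁻¹, hD ⟨b, hb⟩⟩ = 1 := by
      intro hmem
      rw [← map_mul]
      have h5 : (⟨δ ⟨b, hb⟩, hmem⟩ : A) * ⟨(δ ⟨b, hb⟩)⁻¹, hD ⟨b, hb⟩⟩ = 1 :=
        Subtype.ext (mul_inv_cancel₀ (hne b hb))
      rw [h5, map_one]
    have h5 := h4 (by
      refine sub_mem (mul_mem (hP _) ?_) (mul_mem (hP _) ?_) <;>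
      exact Subalgebra.algebraMap_mem _ _)
    rw [← h2, zero_mul] at h5
    exact zero_ne_one h5

end MP2619.Q6
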