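import Pool.Agent.Lib.MP_2619d0_ag.Q8.VRed2
import Pool.Agent.Lib.MP_2619d0_ag.Q9.Final
import Pool.Agent.Lib.MP_2619d0_ag.Y.Y13
import Pool.Agent.Lib.MP_2619d0_ag.Z.M13Z
import Pool.Agent.Lib.MP_2619d0_ag.Z.Z7

/-!
# Theorem Q13
-/

set_option autoImplicit false

namespace MP2619.Q9

universe u

open MvPolynomial Pool.Agent.Lib.MP_2619d0_ag Pool.Agent.Lib.MP_2619d0_ag.T MP2619.T MP2619.Q6

/-- The complex form: the multiple base points in the closure of `p` are double, and the common zeros of their quadratic parts have dimension at most `D` except for finitely many of them. -/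
def _root_.MP2619.Q6.Bk.MultCZ {n N s : ℕ} (K : Bk n N s) (D : ℕ) {r : ℕ}
    (f : Fin r → MvPolynomial (Fin N) ℂ) {L : Type u} [Field L] [Algebra ℂ L] (p : Fin N → L) :
    Prop :=
  ∃ T : Finset (Fin N → ℂ), ∀ P0 : Fin N → ℂ, K.Nz P0 →
    (∀ (g : MvPolynomial (Fin N) ℂ) (d : Fin s → ℕ), K.MH g d → aeval p g = 0 → aeval P0 g = 0) →
    TayNe 1 f P0 ∨ (TayNe 2 f P0 ∧
      (ZL f P0 D ∨ ∃ b ∈ T, ∃ c : Fin s → ℂ, ∀ j, P0 j = c (K.bl j) * b j))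

/-- the source of any dimension, double base points in the closure of `p` -/
theorem q13_points {q n N s : ℕ} (K : Bk n N s)
    {F : MvPolynomial (Fin (2 * q + 2 + 4)) ℂ} (hF : VG F)
    (f : Fin (2 * q + 2 + 4) → MvPolynomial (Fin N) ℂ)
    {e : Fin s → ℕ} (hd : ∀ i, K.MH (f i) e) (h0 : aeval f F = 0)
    {L : Type u} [Field L] [Algebra ℂ L] (p : Fin N → L) (hp : ∀ i, ∃ j, K.bl j = i ∧ p j ≠ 0)
    (hm : K.MultCZ (q + 2 + 1 + s) f p) (hx : HG F (fun j => aeval p (f j))) :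
    ¬ Odd (Module.finrank (ratioField (fun j => aeval p (f j))) L) := by
  classical
  intro hodd
  obtain ⟨cof2, hcf2, hgen⟩ := rel_gens K p
  obtain ⟨T0, hT0⟩ := hm
  obtain ⟨T, hTdef⟩ : ∃ T : Finset (Fin N → ℂ), T = T0.filter fun b => K.Nz b := ⟨_, rfl⟩
  have hT1 : ∀ b ∈ T, K.Nz b := by
    intro b hb
    rw [hTdef] at hb
    exact (Finset.mem_filter.1 hb).2
  have hT : ∀ P0 : Fin N → ℂ, K.Nz P0 →
      (∀ (g : MvPolynomial (Fin N) ℂ) (d : Fin s → ℕ), K.MH g d → aeval p g = 0 →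
        aeval P0 g = 0) → TayNe 1 f P0 ∨ (TayNe 2 f P0 ∧
      (ZL f P0 (q + 2 + 1 + s) ∨ ∃ b ∈ T, ∃ c : Fin s → ℂ, ∀ j, P0 j = c (K.bl j) * b j)) := by
    intro P0 hP0 hcl
    rcases hT0 P0 hP0 hcl with h1 | ⟨h1, h2 | ⟨b, hb, c, hc⟩⟩
    · exact Or.inl h1
    · exact Or.inr ⟨h1, Or.inl h2⟩
    · refine Or.inr ⟨h1, Or.inr ⟨b, ?_, c, hc⟩⟩
      rw [hTdef]
      refine Finset.mem_filter.2 ⟨hb, fun i => ?_⟩
      obtain ⟨j, hj, hj0⟩ := hP0 i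
      refine ⟨j, hj, fun h3 => hj0 ?_⟩
      rw [hc j, h3, mul_zero]
  have hcfT : (⋃ b ∈ T, Set.range b).Finite :=
    Set.Finite.biUnion (Finset.finite_toSet T) fun b _ => Set.finite_range b
  refine q13_core (mm := 2 * q + 2 + 2) K (RE_holds q) (by omega) (q + 2) (by omega) hF f hd h0 p
    (cof2 ∪ ⋃ b ∈ T, Set.range b) (hcf2.union hcfT) ?_
    (srcAllV (D := 2 * q + 2) K hF f hd p hp hx hodd)
  intro k0 Q _ _ _ _ hk0 f0 hf0 p' hrel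
  have h1 : (fun i => MvPolynomial.map (algebraMap k0 ℂ) (f0 i)) = f := funext hf0
  refine mult2Z_of_CB K f0 p' p hrel (hgen k0 fun c hc => hk0 c (Or.inl hc)) T ?_ hT1 ?_
  · intro b hb
    have h2 : ∀ j, ∃ c : k0, algebraMap k0 ℂ c = b j := fun j =>
      hk0 _ (Or.inr (Set.mem_iUnion₂.2 ⟨b, hb, ⟨j, rfl⟩⟩))
    choose b0 hb0 using h2
    exact ⟨b0, hb0⟩
  · rw [h1]
    exact hT

theorem q13_final {q n N s : ℕ} (K : Bk n N s)
    {F : MvPolynomial (Fin (2 * q + 2 + 4)) ℂ} (hF : VG F)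
    (f : Fin (2 * q + 2 + 4) → MvPolynomial (Fin N) ℂ)
    {e : Fin s → ℕ} (hd : ∀ i, K.MH (f i) e) (h0 : aeval f F = 0)
    {L : Type u} [Field L] [Algebra ℂ L] (p : Fin N → L) (hp : ∀ i, ∃ j, K.bl j = i ∧ p j ≠ 0)
    (hc : K.MultCZ (q + 2 + 1 + s) f p ∨
      ∃ i0, (e i0 ≤ 4 ∨ (e i0 ≤ 5 ∧ q = 0 ∧ n = 4)) ∧ ∀ i, i ≠ i0 → e i ≤ 2)
    (hx : HG F (fun j => aeval p (f j))) {r : ℕ} (v : Fin r → L)
    (hv : AlgebraicIndependent (ratioField (fun j => aeval p (f j))) v) :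
    ¬ Odd (Module.finrank (IntermediateField.adjoin (ratioField (fun j => aeval p (f j)))
      (Set.range v)) L) := by
  rcases hc with hm | ⟨i0, hm | ⟨hm, rfl, rfl⟩, hi⟩
  · refine v_red' (m := 2 * q + 2 + 2) K hF f p (fun L' _ _ p' hp' hx' hrel => ?_) hp hx v hv
    refine q13_points K hF f hd h0 p' hp' ?_ hx'
    obtain ⟨T, hT⟩ := hm
    refine ⟨T, fun P0 hP0 hcl => ?_⟩
    exact hT P0 hP0 fun g d hg hg0 => hcl g d hg (hrel g hg0)
  · exact q9_final K hF f hd h0 (Or.inr ⟨i0, hm, hi⟩) p hp hx v hv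
  · refine v_red' (m := 2 * 0 + 2 + 2) K hF f p (fun L' _ _ p' hp' hx' _ => ?_) hp hx v hv
    exact five_block K hF f hd h0 i0 hm hi p' hx'

end MP2619.Q9
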